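import Mathlib
import Pool.Agent.W277.UB.Loc

/-!
# Scaling of Wronskians
-/

namespace Pool.Agent.W277.UC

open Finset Polynomial Pool.Agent.W277.UB PlaceData

variable {k K : Type*} [Field k] [Field K] [Algebra k K]

/-- Coefficients of `D^j (g x)` in terms of `D^i x`. -/
def Lc (D : Derivation k K K) (g : K) : ℕ → ℕ → K
  | 0, 0 => g
  | 0, _ + 1 => 0
  | j + 1, 0 => D (Lc D g j 0)
  | j + 1, i + 1 => D (Lc D g j (i + 1)) + Lc D g j i

lemma Lc_zero_of_lt (D : Derivation k K K) (g : K) (j : ℕ) : ∀ i, j < i → Lc D g j i = 0 := by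
  induction j with
  | zero =>
    intro i hi
    cases i with
    | zero => omega
    | succ i => rfl
  | succ j ih =>
    intro i hi
    cases i with
    | zero => omega
    | succ i =>
      rw [Lc, ih (i + 1) (by omega), ih i (by omega), map_zero, add_zero]

lemma Lc_diag (D : Derivation k K K) (g : K) (j : ℕ) : Lc D g j j = g := by
  induction j with
  | zero => rfl
  | succ j ih => rw [Lc, Lc_zero_of_lt D g j (j + 1) (by omega), map_zero, zero_add, ih]

lemma iter_D_mul (D : Derivation k K K) (g x : K) (j : ℕ) : ∀ N, j < N →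
    (D^[j]) (g * x) = ∑ i ∈ range N, Lc D g j i * (D^[i]) x := by
  induction j with
  | zero =>
    intro N hN
    rw [Finset.sum_eq_single_of_mem 0 (by simpa using hN)]
    · rfl
    · intro b _ hb
      rw [Lc_zero_of_lt D g 0 b (by omega), zero_mul]
  | succ j ih =>
    intro N hN
    obtain ⟨N, rfl⟩ : ∃ M, N = M + 1 := ⟨N - 1, by omega⟩
    have hA : ∑ i ∈ range N, (D^[i]) x * D (Lc D g j i) =
        ∑ i ∈ range N, D (Lc D g j (i + 1)) * (D^[i + 1]) x + D (Lc D g j 0) * x := by
      have h1 : ∑ i ∈ range (N + 1), D (Lc D g j i) * (D^[i]) x =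
          ∑ i ∈ range N, D (Lc D g j (i + 1)) * (D^[i + 1]) x + D (Lc D g j 0) * x := by
        rw [Finset.sum_range_succ']
        rfl
      rw [← h1, Finset.sum_range_succ, Lc_zero_of_lt D g j N (by omega), map_zero, zero_mul,
        add_zero]
      exact Finset.sum_congr rfl fun i _ => mul_comm _ _
    rw [Function.iterate_succ_apply', ih N (by omega), map_sum]
    simp only [Derivation.leibniz, smul_eq_mul]
    rw [Finset.sum_add_distrib, hA, Finset.sum_range_succ']
    simp only [Lc, add_mul, Finset.sum_add_distrib, Function.iterate_zero, id]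
    have hB : ∀ i, D ((D^[i]) x) = (D^[i + 1]) x := fun i => by
      rw [Function.iterate_succ_apply']
    simp only [hB]
    ring

/-- Multiplying all functions by `g` multiplies the Wronskian by `g ^ r`. -/
lemma wr_mul (D : Derivation k K K) {r : ℕ} (g : K) (x : Fin r → K) :
    (wrM D (fun a => g * x a)).det = g ^ r * (wrM D x).det := by
  have h1 : wrM D (fun a => g * x a) =
      (Matrix.of fun j i : Fin r => Lc D g j i) * wrM D x := by
    ext j a
    rw [Matrix.mul_apply]
    simp only [wrM, Matrix.of_apply]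
    rw [iter_D_mul D g (x a) j r j.is_lt, Finset.sum_range]
  have h2 : (Matrix.of fun j i : Fin r => Lc D g j i).det = g ^ r := by
    rw [Matrix.det_of_isLowerTriangular]
    · simp [Lc_diag]
    · intro i j hij
      exact Lc_zero_of_lt D g i j hij
  rw [h1, Matrix.det_mul, h2]

variable {Q : PlaceData k K}

/-- Local estimate for Wronskians, for a normalisation `q` of any sign. -/
lemma G_wr_scale {v : Q.Pl} {r d : ℕ} (hrd : r ≤ d + 1) (u c : Fin r → K) (hu : ∀ a, u a ≠ 0)
    {q : ℤ} (κ : ℕ) (huq : ∀ a, -q ≤ Q.ord v (u a)) (p : K) (hp : p ≠ 0) (hpo : Q.ord v p = -q)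
    (hc : ∀ a, Q.G v (-(κ * q)) (c a)) :
    Q.G v (((d : ℤ) - (r - 1)) * ∑ a, Q.ord v (u a) - r * (κ + (r - 1)) * q -
      Q.loss v * tri r) (wrM Q.D (fun a => u a ^ d * c a)).det := by
  rcases Nat.eq_zero_or_pos r with hr | hr
  · subst hr
    simp [tri, G_one]
  obtain ⟨a0, -, ha0⟩ := Finset.exists_min_image (univ : Finset (Fin r)) (fun a => Q.ord v (u a))
    ⟨⟨0, hr⟩, Finset.mem_univ _⟩
  set g : K := u a0 ^ d * p ^ κ with hg
  have hg0 : g ≠ 0 := mul_ne_zero (pow_ne_zero _ (hu a0)) (pow_ne_zero _ hp)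
  have hgo : Q.ord v g = d * Q.ord v (u a0) - κ * q := by
    rw [hg, Q.ord_mul v _ _ (pow_ne_zero _ (hu a0)) (pow_ne_zero _ hp), ord_pow (hu a0),
      ord_pow hp, hpo]
    ring
  have h1 : (fun a => u a ^ d * c a) = fun a => g * ((u a / u a0) ^ d * (c a / p ^ κ)) := by
    funext a
    have := hu a0
    rw [hg, div_pow]
    field_simp
  rw [h1, wr_mul]
  have h2 := G_wr' (Q := Q) (v := v) hrd (fun a => u a / u a0) (fun a => c a / p ^ κ)
    (fun a => div_ne_zero (hu a) (hu a0)) (fun a => by
      rw [ord_div (hu a) (hu a0)]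
      have := ha0 a (Finset.mem_univ a)
      linarith) (fun a => by
      intro hne
      have hca : c a ≠ 0 := by
        intro h
        rw [h, zero_div] at hne
        exact hne rfl
      rw [ord_div hca (pow_ne_zero _ hp), ord_pow hp, hpo]
      have := hc a hca
      linarith)
  have h3 := G_mul (G_self (Q := Q) (v := v) (x := g ^ r)) h2
  refine G_mono h3 ?_
  rw [ord_pow hg0, hgo]
  have h4 : ∑ a, Q.ord v (u a / u a0) = ∑ a, Q.ord v (u a) - r * Q.ord v (u a0) := by
    have h5 : ∀ a, Q.ord v (u a / u a0) = Q.ord v (u a) - Q.ord v (u a0) := fun a =>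
      ord_div (hu a) (hu a0)
    simp only [h5, Finset.sum_sub_distrib, Finset.sum_const, Finset.card_univ, Fintype.card_fin,
      nsmul_eq_mul]
  rw [h4]
  have h5 := huq a0
  have h6 : (0 : ℤ) ≤ (r : ℤ) * (r - 1) := by
    have : (1 : ℤ) ≤ r := by exact_mod_cast hr
    apply mul_nonneg <;> linarith
  nlinarith

end Pool.Agent.W277.UC
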