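import Mathlib
import Pool.Agent.W277.UC.Scale
import Pool.Agent.W277.UB.Glob3

/-!
# The core estimates
-/

namespace Pool.Agent.W277.UC

open Finset Polynomial Pool.Agent.W277.UB PlaceData

variable {k K : Type*} [Field k] [Field K] [Algebra k K]

section Defs

variable (Q : PlaceData k K)

/-- Total size of a normalisation. -/
def Hq (S : Finset Q.Pl) (q : Q.Pl → ℤ) : ℤ := ∑ v ∈ S, Q.wt v * q v

/-- Height relative to a finite set of places. -/
noncomputable def hS (S : Finset Q.Pl) (z : K) : ℤ := ∑ v ∈ S, Q.wt v * Q.pole v z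

/-- Elements which are units outside `S`. -/
def Unit' (S : Finset Q.Pl) (z : K) : Prop := z ≠ 0 ∧ ∀ v, v ∉ S → Q.ord v z = 0

end Defs

variable {Q : PlaceData k K} {S : Finset Q.Pl}

lemma hS_nonneg (S : Finset Q.Pl) (z : K) : 0 ≤ hS Q S z :=
  Finset.sum_nonneg fun v _ => mul_nonneg (Q.wt_nonneg v) (pole_nonneg v z)

lemma sum_le_zero' {W : K} (hW : W ≠ 0) (b : Q.Pl → ℤ)
    (h1 : ∀ v ∈ S, Q.G v (b v) W) (h2 : ∀ v, v ∉ S → Q.G v 0 W) :
    ∑ v ∈ S, Q.wt v * b v ≤ 0 := by
  refine le_trans ?_ (Q.prod_formula W hW S fun v hv => h2 v hv hW)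
  exact Finset.sum_le_sum fun v hv => mul_le_mul_of_nonneg_left (h1 v hv hW) (Q.wt_nonneg v)

lemma sum_unit {z : K} (hz : Unit' Q S z) : ∑ v ∈ S, Q.wt v * Q.ord v z = 0 := by
  obtain ⟨hz0, hz1⟩ := hz
  apply le_antisymm
  · exact Q.prod_formula z hz0 _ fun v hv => le_of_eq (hz1 v hv).symm
  · have h := Q.prod_formula z⁻¹ (inv_ne_zero hz0) S fun v hv => by
      rw [ord_inv hz0, hz1 v hv, neg_zero]
    simp only [ord_inv hz0, mul_neg, Finset.sum_neg_distrib] at h
    linarith

lemma sum_sum_unit {r : ℕ} {z : Fin r → K} (hz : ∀ i, Unit' Q S (z i)) :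
    ∑ v ∈ S, Q.wt v * ∑ i, Q.ord v (z i) = 0 := by
  simp only [Finset.mul_sum]
  rw [Finset.sum_comm]
  exact Finset.sum_eq_zero fun i _ => sum_unit (hz i)

lemma sum_loss' (hloss : Q.lossS ⊆ S) : ∑ v ∈ S, Q.wt v * Q.loss v ≤ Q.lossT := by
  rw [← Finset.sum_subset hloss]
  · exact Q.loss_sum
  · intro v _ hv
    rw [Q.loss_supp v hv, mul_zero]

/-- The exchange estimate. -/
lemma exchange {d r κ : ℕ} (hloss : Q.lossS ⊆ S) (hrd : r ≤ d + 1) (q : Q.Pl → ℤ)
    (hq0 : ∀ v, v ∉ S → q v = 0) (hatt : ∀ v, ∃ p : K, p ≠ 0 ∧ Q.ord v p = - q v)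
    (u c : Fin r → K) (hu : ∀ a, Unit' Q S (u a)) (huq : ∀ a v, - q v ≤ Q.ord v (u a))
    (hc : ∀ a v, Q.G v (-(κ * q v)) (c a)) (a : Fin r) (p b : K)
    (hp : Unit' Q S p) (hpq : ∀ v, - q v ≤ Q.ord v p)
    (hb : ∀ v, Q.G v (-(κ * q v)) b)
    (hli : LinearIndependent k (fun i => u i ^ d * c i)) (g : Fin r → k) (hga : g a ≠ 0)
    (hg : p ^ d * b = ∑ i, g i • (u i ^ d * c i)) :
    ((d : ℤ) - (r - 1)) * hS Q S (u a / p) ≤ r * (κ + (r - 1)) * Hq Q S q + tri r * Q.lossT := by
  have hW := wr_ne_zero Q.D Q.D_ker _ hli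
  set W := (wrM Q.D (fun i => u i ^ d * c i)).det with hWd
  have hsw := wr_swap Q.D (fun i => u i ^ d * c i) a g
  rw [← hg] at hsw
  have hupd : Function.update (fun i => u i ^ d * c i) a (p ^ d * b) =
      fun i => (Function.update u a p i) ^ d * (Function.update c a b i) := by
    funext i
    by_cases hi : i = a
    · subst hi
      simp
    · simp [Function.update_of_ne hi]
  rw [hupd] at hsw
  have hu0' : ∀ i, Function.update u a p i ≠ 0 := by
    intro i
    by_cases hi : i = a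
    · subst hi
      simpa using hp.1
    · simpa [Function.update_of_ne hi] using (hu i).1
  have huq' : ∀ i v, - q v ≤ Q.ord v (Function.update u a p i) := by
    intro i v
    by_cases hi : i = a
    · subst hi
      simpa using hpq v
    · simpa [Function.update_of_ne hi] using huq i v
  have hc' : ∀ i v, Q.G v (-(κ * q v)) (Function.update c a b i) := by
    intro i v
    by_cases hi : i = a
    · subst hi
      simpa using hb v
    · simpa [Function.update_of_ne hi] using hc i v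
  have hsum : ∀ v, ∑ i, Q.ord v (Function.update u a p i) =
      ∑ i, Q.ord v (u i) - Q.ord v (u a) + Q.ord v p := by
    intro v
    rw [← Finset.add_sum_erase _ _ (Finset.mem_univ a),
      ← Finset.add_sum_erase (s := Finset.univ) (fun i => Q.ord v (u i)) (Finset.mem_univ a)]
    have h4 : ∑ i ∈ univ.erase a, Q.ord v (Function.update u a p i) =
        ∑ i ∈ univ.erase a, Q.ord v (u i) := by
      refine Finset.sum_congr rfl fun i hi => ?_
      rw [Function.update_of_ne (Finset.ne_of_mem_erase hi)]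
    rw [h4, Function.update_self]
    ring
  have hloc1 : ∀ v, Q.G v (((d : ℤ) - (r - 1)) * ∑ i, Q.ord v (u i) -
      r * (κ + (r - 1)) * q v - Q.loss v * tri r) W := by
    intro v
    obtain ⟨p0, hp0, hp0o⟩ := hatt v
    exact G_wr_scale hrd u c (fun i => (hu i).1) κ (fun i => huq i v) p0 hp0 hp0o
      (fun i => hc i v)
  have hloc2 : ∀ v, Q.G v (((d : ℤ) - (r - 1)) * (∑ i, Q.ord v (u i) - Q.ord v (u a) +
      Q.ord v p) - r * (κ + (r - 1)) * q v - Q.loss v * tri r) W := by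
    intro v
    obtain ⟨p0, hp0, hp0o⟩ := hatt v
    have h1 := G_wr_scale (Q := Q) (v := v) hrd _ _ hu0' κ
      (fun i => huq' i v) p0 hp0 hp0o (fun i => hc' i v)
    rw [hsw, hsum v] at h1
    intro _
    have h2 := h1 (mul_ne_zero (by simpa using hga) hW)
    rw [Q.ord_mul v _ _ (by simpa using hga) hW, Q.ord_alg v _ hga, zero_add] at h2
    exact h2
  have h := sum_le_zero' (Q := Q) (S := S) hW
    (fun v => ((d : ℤ) - (r - 1)) * (∑ i, Q.ord v (u i)) +
      ((d : ℤ) - (r - 1)) * Q.pole v (u a / p) -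
      r * (κ + (r - 1)) * q v - Q.loss v * tri r) ?_ ?_
  · have h1 : ∑ v ∈ S, Q.wt v * (((d : ℤ) - (r - 1)) * (∑ i, Q.ord v (u i)) +
        ((d : ℤ) - (r - 1)) * Q.pole v (u a / p) -
        r * (κ + (r - 1)) * q v - Q.loss v * tri r) =
        ((d : ℤ) - (r - 1)) * ∑ v ∈ S, Q.wt v * ∑ i, Q.ord v (u i) +
        ((d : ℤ) - (r - 1)) * hS Q S (u a / p) - r * (κ + (r - 1)) * Hq Q S q -
        (∑ v ∈ S, Q.wt v * Q.loss v) * tri r := by
      unfold hS Hq
      rw [Finset.mul_sum, Finset.mul_sum, Finset.mul_sum, Finset.sum_mul,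
        ← Finset.sum_add_distrib, ← Finset.sum_sub_distrib, ← Finset.sum_sub_distrib]
      exact Finset.sum_congr rfl fun v _ => by ring
    rw [h1, sum_sum_unit hu] at h
    have h3 := mul_le_mul_of_nonneg_right (sum_loss' hloss) (tri_nonneg r)
    linarith
  · intro v _
    have hup : u a / p ≠ 0 := div_ne_zero (hu a).1 hp.1
    rw [pole_of_ne hup, ord_div (hu a).1 hp.1]
    rcases le_total (- (Q.ord v (u a) - Q.ord v p)) 0 with h0 | h0
    · rw [max_eq_left h0]
      refine G_mono (hloc1 v) (le_of_eq (by ring))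
    · rw [max_eq_right h0]
      refine G_mono (hloc2 v) (le_of_eq (by ring))
  · intro v hv
    have h2 : ∑ i, Q.ord v (u i) = 0 :=
      Finset.sum_eq_zero fun i _ => (hu i).2 v hv
    have h1 := hloc1 v
    rw [h2, Q.loss_supp v (fun h => hv (hloss h)), hq0 v hv] at h1
    simpa using h1

/-- A minimal dependent subfamily of a dependent subfamily. -/
lemma exists_circuit' {n : ℕ} (x : Fin n → K) (J : Finset (Fin n))
    (hx : ¬ LinearIndepOn k x (J : Set (Fin n))) :
    ∃ I ⊆ J, ∃ g : Fin n → k, (∀ i ∈ I, g i ≠ 0) ∧ I.Nonempty ∧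
      ∑ i ∈ I, g i • x i = 0 ∧ ∀ j ∈ I, LinearIndepOn k x (I.erase j : Set (Fin n)) := by
  classical
  have h2 : (J.powerset.filter fun I : Finset (Fin n) =>
      ¬ LinearIndepOn k x (I : Set (Fin n))).Nonempty := ⟨J, by simpa using hx⟩
  obtain ⟨I, hI, hmin⟩ := Finset.exists_min_image _ (fun I => I.card) h2
  rw [Finset.mem_filter, Finset.mem_powerset] at hI
  obtain ⟨hIJ, hI'⟩ := hI
  have hmin' : ∀ j ∈ I, LinearIndepOn k x (I.erase j : Set (Fin n)) := by
    intro j hj
    by_contra hcon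
    have h3 := hmin (I.erase j) (by
      rw [Finset.mem_filter, Finset.mem_powerset]
      exact ⟨(Finset.erase_subset _ _).trans hIJ, by simpa using hcon⟩)
    have h4 := Finset.card_erase_lt_of_mem hj
    omega
  rw [not_linearIndepOn_finset_iff] at hI'
  obtain ⟨g, hg, i0, hi0, hgi0⟩ := hI'
  refine ⟨I, hIJ, g, ?_, ⟨i0, hi0⟩, hg, hmin'⟩
  intro j hj hgj
  have h5 := hmin' j hj
  rw [linearIndepOn_finset_iff] at h5
  have h6 : ∑ i ∈ I.erase j, g i • x i = 0 := by
    rw [← hg, ← Finset.add_sum_erase I _ hj, hgj, zero_smul, zero_add]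
  have h7 : i0 ∈ I.erase j := by
    rw [Finset.mem_erase]
    refine ⟨?_, hi0⟩
    rintro rfl
    exact hgi0 hgj
  exact hgi0 (h5 g h6 i0 h7)

/-- A vanishing sum of powers with small coefficients forces two points to be close. -/
lemma close_of_sum {d n κ : ℕ} (hloss : Q.lossS ⊆ S) (hnd : n ≤ d + 1) (q : Q.Pl → ℤ)
    (hq0 : ∀ v, v ∉ S → q v = 0) (hatt : ∀ v, ∃ p : K, p ≠ 0 ∧ Q.ord v p = - q v)
    (hH : 0 ≤ Hq Q S q)
    (z c : Fin (n + 1) → K) (hz : ∀ a, Unit' Q S (z a)) (hzq : ∀ a v, - q v ≤ Q.ord v (z a))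
    (hc : ∀ a v, Q.G v (-(κ * q v)) (c a)) (hsum : ∑ i, z i ^ d * c i = 0)
    (hne : ∃ i, c i ≠ 0) :
    ∃ i j, i ≠ j ∧
      ((d : ℤ) - (n - 1)) * hS Q S (z i / z j) ≤
        n * (κ + (n - 1)) * Hq Q S q + tri n * Q.lossT ∧
      ((d : ℤ) - (n - 1)) * hS Q S (z j / z i) ≤
        n * (κ + (n - 1)) * Hq Q S q + tri n * Q.lossT := by
  classical
  set x : Fin (n + 1) → K := fun i => z i ^ d * c i with hxd
  set J : Finset (Fin (n + 1)) := univ.filter fun i => c i ≠ 0 with hJ
  have hdep : ¬ LinearIndepOn k x (J : Set (Fin (n + 1))) := by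
    rw [not_linearIndepOn_finset_iff]
    refine ⟨fun _ => 1, ?_, ?_⟩
    · simp only [one_smul]
      rw [← hsum, hJ, Finset.sum_filter]
      refine Finset.sum_congr rfl fun i _ => ?_
      have hxi : x i = z i ^ d * c i := rfl
      by_cases h : c i = 0
      · simp [h, hxi]
      · simp [h]
    · obtain ⟨i, hi⟩ := hne
      exact ⟨i, by simpa [hJ] using hi, one_ne_zero⟩
  obtain ⟨I, hIJ, g, hg0, hI, hg, hind⟩ := exists_circuit' x J hdep
  have hx0 : ∀ i ∈ I, x i ≠ 0 := fun i hi =>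
    mul_ne_zero (pow_ne_zero _ (hz i).1) (by simpa [hJ] using hIJ hi)
  have key : ∀ i0 j0, i0 ∈ I → j0 ∈ I → i0 ≠ j0 →
      ((d : ℤ) - (n - 1)) * hS Q S (z i0 / z j0) ≤
        n * (κ + (n - 1)) * Hq Q S q + tri n * Q.lossT := by
    intro i0 j0 hi0 hj0 hij
    set J := I.erase j0 with hJ
    have hiJ : i0 ∈ J := Finset.mem_erase.mpr ⟨hij, hi0⟩
    set r := J.card with hr
    let s : Fin r ≃ J := J.equivFin.symm
    have hr1 : r ≤ n := by
      have h1 := Finset.card_le_univ I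
      rw [Fintype.card_fin] at h1
      have h2 : J.card < I.card := Finset.card_erase_lt_of_mem hj0
      omega
    have hr0 : 1 ≤ r := Finset.card_pos.mpr ⟨i0, hiJ⟩
    have hli : LinearIndependent k (fun a : Fin r => z (s a) ^ d * c (s a)) := by
      have h1 : LinearIndependent k (fun i : J => x i) := by
        have := hind j0 hj0
        exact this
      exact h1.comp s s.injective
    have hsum : z j0 ^ d * c j0 =
        ∑ a : Fin r, (-(g (s a)) / g j0) • (z (s a) ^ d * c (s a)) := by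
      have h1 : ∑ a : Fin r, (-(g (s a)) / g j0) • x (s a) =
          ∑ i ∈ J, (-(g i) / g j0) • x i := by
        rw [← Finset.sum_coe_sort J (fun i => (-(g i) / g j0) • x i)]
        exact Equiv.sum_comp s (fun i : J => (-(g i) / g j0) • x i)
      have h2 : g j0 • (∑ i ∈ J, (-(g i) / g j0) • x i) = g j0 • x j0 := by
        rw [Finset.smul_sum]
        have h3 : ∀ i ∈ J, g j0 • ((-(g i) / g j0) • x i) = - (g i • x i) := by
          intro i _
          rw [smul_smul, mul_div_cancel₀ _ (hg0 j0 hj0), neg_smul]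
        rw [Finset.sum_congr rfl h3, Finset.sum_neg_distrib]
        rw [← Finset.add_sum_erase I _ hj0] at hg
        exact (eq_neg_of_add_eq_zero_left hg).symm
      have h4 : ∑ i ∈ J, (-(g i) / g j0) • x i = x j0 := by
        have h5 := congrArg (fun t => (g j0)⁻¹ • t) h2
        simpa [smul_smul, inv_mul_cancel₀ (hg0 j0 hj0)] using h5
      rw [h4] at h1
      exact h1.symm
    have h := exchange (Q := Q) (S := S) (d := d) (r := r) (κ := κ) hloss (by omega) q hq0 hatt
      (fun a => z (s a)) (fun a => c (s a)) (fun a => hz _) (fun a v => hzq _ v)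
      (fun a v => hc _ v) (s.symm ⟨i0, hiJ⟩) (z j0) (c j0) (hz j0) (hzq j0)
      (fun v => hc j0 v) hli (fun a => -(g (s a)) / g j0) (by
        rw [Equiv.apply_symm_apply]
        exact div_ne_zero (neg_ne_zero.mpr (hg0 i0 hi0)) (hg0 j0 hj0)) hsum
    rw [Equiv.apply_symm_apply] at h
    have hrn : (r : ℤ) ≤ n := by exact_mod_cast hr1
    have hr0' : (1 : ℤ) ≤ r := by exact_mod_cast hr0
    have h6 : ((d : ℤ) - (n - 1)) * hS Q S (z i0 / z j0) ≤
        ((d : ℤ) - (r - 1)) * hS Q S (z i0 / z j0) := by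
      apply mul_le_mul_of_nonneg_right _ (hS_nonneg S _)
      linarith
    have h7 : (r : ℤ) * (κ + (r - 1)) * Hq Q S q ≤ n * (κ + (n - 1)) * Hq Q S q := by
      apply mul_le_mul_of_nonneg_right _ hH
      have hκ : (0 : ℤ) ≤ κ := Int.natCast_nonneg κ
      nlinarith
    have h8 := mul_le_mul_of_nonneg_right (tri_mono hr1) (lossT_nonneg (Q := Q))
    linarith
  have hcard : 1 < I.card := by
    by_contra hcon
    have h1 : I.card = 1 := by
      have := Finset.card_pos.mpr hI
      omega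
    obtain ⟨i, hi⟩ := Finset.card_eq_one.mp h1
    rw [hi, Finset.sum_singleton] at hg
    have hiI : i ∈ I := by rw [hi]; exact mem_singleton_self i
    rcases smul_eq_zero.mp hg with h2 | h2
    · exact hg0 i hiI h2
    · exact hx0 i hiI h2
  obtain ⟨i, hi, j, hj, hij⟩ := Finset.one_lt_card.mp hcard
  exact ⟨i, j, hij, key i j hi hj hij, key j i hj hi (Ne.symm hij)⟩

end Pool.Agent.W277.UC
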