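import Mathlib
import Pool.Agent.W277.UC.Core
import Pool.Agent.W277.UB.Comb

/-!
# Determinants of test functions
-/

namespace Pool.Agent.W277.UC

open Finset Polynomial Pool.Agent.W277.UB PlaceData

variable {k K : Type*} [Field k] [Field K] [Algebra k K]

/-- The determinant of the test functions `φ` at the points `z`. -/
noncomputable def Edet {s : ℕ} (φ : Fin s → K → K) (z : Fin s → K) : K :=
  (Matrix.of fun i j => φ j (z i)).det

/-- The signed cofactors. -/
noncomputable def Ecof {s : ℕ} (φ : Fin s → K → K) (z : Fin (s + 1) → K) (i : Fin (s + 1)) : K :=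
  (-1) ^ (i : ℕ) * Edet φ (z ∘ i.succAbove)

lemma Ecof_sum {s d : ℕ} (φ : Fin s → K → K) (α : Fin s → K) (z : Fin (s + 1) → K)
    (hrel : ∀ i, z i ^ d = ∑ j, α j * φ j (z i)) : ∑ i, z i ^ d * Ecof φ z i = 0 := by
  set M : Matrix (Fin (s + 1)) (Fin (s + 1)) K :=
    Matrix.of fun i j => Fin.cases (z i ^ d) (fun j : Fin s => φ j (z i)) j with hM
  have h1 : M.det = ∑ i, z i ^ d * Ecof φ z i := by
    rw [Matrix.det_succ_column_zero]
    refine Finset.sum_congr rfl fun i _ => ?_
    have h1 : M.submatrix i.succAbove Fin.succ =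
        (Matrix.of fun a j => φ j ((z ∘ i.succAbove) a)) := by
      ext a b
      simp [hM]
    rw [h1]
    unfold Ecof Edet
    simp only [hM, Matrix.of_apply, Fin.cases_zero]
    ring
  rw [← h1]
  rw [← Matrix.exists_mulVec_eq_zero_iff]
  refine ⟨Fin.cases (-1) α, ?_, ?_⟩
  · intro h
    have := congrFun h 0
    simp at this
  · funext i
    simp only [Matrix.mulVec, dotProduct, hM, Matrix.of_apply, Pi.zero_apply]
    rw [Fin.sum_univ_succ]
    simp only [Fin.cases_zero, Fin.cases_succ]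
    rw [hrel i]
    have : ∑ x, φ x (z i) * α x = ∑ j, α j * φ j (z i) :=
      Finset.sum_congr rfl fun j _ => mul_comm _ _
    rw [this]
    ring

variable {Q : PlaceData k K} {S : Finset Q.Pl}

lemma G_Edet {s : ℕ} {v : Q.Pl} {q : ℤ} (κ : Fin s → ℕ) (φ : Fin s → K → K) (z : Fin s → K)
    (h : ∀ i j, Q.G v (-(κ j * q)) (φ j (z i))) :
    Q.G v (-((∑ j, κ j : ℕ) * q)) (Edet φ z) := by
  have h1 := G_det (Q := Q) (v := v) (Matrix.of fun i j => φ j (z i)) (fun _ => 0)
    (fun j => -(κ j * q)) (fun i j => by simpa using h i j)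
  refine G_mono h1 (le_of_eq ?_)
  simp only [Finset.sum_const_zero, zero_add, Finset.sum_neg_distrib]
  push_cast
  rw [Finset.sum_mul]

lemma G_Ecof {s : ℕ} {v : Q.Pl} {q : ℤ} (κ : Fin s → ℕ) (φ : Fin s → K → K) (z : Fin (s + 1) → K)
    (h : ∀ i j, Q.G v (-(κ j * q)) (φ j (z i))) (i : Fin (s + 1)) :
    Q.G v (-((∑ j, κ j : ℕ) * q)) (Ecof φ z i) :=
  G_cof_sign _ (G_Edet κ φ _ fun _ j => h _ j)

/-- (IV): points of a cluster. -/
lemma cluster_ineq {s d : ℕ} (κ : Fin s → ℕ) (φ : Fin s → K → K) (α : Fin s → K)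
    (q qo : Q.Pl → ℤ) (Z : Set K) (hZ : ∀ z ∈ Z, Unit' Q S z)
    (hφ : ∀ z ∈ Z, ∀ j v, Q.G v (-(κ j * q v)) (φ j z))
    (hq0 : ∀ v, v ∉ S → q v = 0)
    (hatt : ∀ v, ∃ p ∈ Z, Q.ord v p = - qo v)
    (hrel : ∀ z ∈ Z, z ^ d = ∑ j, α j * φ j z)
    (z : Fin s → K) (hz : ∀ i, z i ∈ Z) (hE : Edet φ z ≠ 0) (y : K) (hy : y ∈ Z) :
    d * Hq Q S qo ≤ d * ∑ i, hS Q S (z i / y) + (∑ j, κ j : ℕ) * Hq Q S q := by
  have hy0 : y ≠ 0 := (hZ y hy).1
  have hm0 : ∀ v, 0 ≤ ∑ i, Q.pole v (z i / y) := fun v =>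
    Finset.sum_nonneg fun i _ => pole_nonneg v _
  have hle : ∀ v i, Q.pole v (z i / y) ≤ ∑ i, Q.pole v (z i / y) := fun v i =>
    Finset.single_le_sum (f := fun i => Q.pole v (z i / y)) (fun i _ => pole_nonneg v _)
      (Finset.mem_univ i)
  have hzo : ∀ v i, Q.ord v y - ∑ i, Q.pole v (z i / y) ≤ Q.ord v (z i) := by
    intro v i
    have h1 := hle v i
    have hzi : z i ≠ 0 := (hZ _ (hz i)).1
    rw [pole_of_ne (div_ne_zero hzi hy0), ord_div hzi hy0] at h1
    have := le_max_right 0 (- (Q.ord v (z i) - Q.ord v y))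
    linarith
  have hloc : ∀ v, Q.G v (d * (Q.ord v y + qo v) - d * ∑ i, Q.pole v (z i / y) -
      (∑ j, κ j : ℕ) * q v) (Edet φ z) := by
    intro v hne
    obtain ⟨p, hp, hpo⟩ := hatt v
    have hp0 : p ≠ 0 := (hZ p hp).1
    set zz : Fin (s + 1) → K := Fin.cons p z with hzz
    have hzzZ : ∀ i, zz i ∈ Z := by
      intro i
      refine Fin.cases ?_ (fun i => ?_) i
      · simpa [hzz] using hp
      · simpa [hzz] using hz i
    have hsum := Ecof_sum φ α zz fun i => hrel _ (hzzZ i)
    rw [Fin.sum_univ_succ] at hsum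
    have h0 : Ecof φ zz 0 = Edet φ z := by
      unfold Ecof
      have h1 : zz ∘ (0 : Fin (s + 1)).succAbove = z := by
        funext i
        simp [hzz]
      rw [h1]
      simp
    rw [h0] at hsum
    simp only [hzz, Fin.cons_zero, Fin.cons_succ] at hsum
    have h1 : p ^ d * Edet φ z = - ∑ i : Fin s, z i ^ d * Ecof φ zz i.succ :=
      eq_neg_of_add_eq_zero_left hsum
    have h2 : Q.G v (d * (Q.ord v y - ∑ i, Q.pole v (z i / y)) - (∑ j, κ j : ℕ) * q v)
        (p ^ d * Edet φ z) := by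
      rw [h1]
      apply G_neg
      apply G_sum
      intro i _
      have h3 : Q.G v (Q.ord v y - ∑ i, Q.pole v (z i / y)) (z i) := fun _ => hzo v i
      have h4 := G_Ecof (Q := Q) (v := v) (q := q v) κ φ zz (fun a j => hφ _ (hzzZ a) j v) i.succ
      refine G_mono (G_mul (G_pow h3 d) h4) (le_of_eq (by ring))
    have h3 := h2 (mul_ne_zero (pow_ne_zero d hp0) hne)
    rw [Q.ord_mul v _ _ (pow_ne_zero d hp0) hne, ord_pow hp0, hpo] at h3
    linarith
  have h := sum_le_zero' (Q := Q) (S := S) hE _ (fun v _ => hloc v) ?_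
  · have h1 : ∑ v ∈ S, Q.wt v * (d * (Q.ord v y + qo v) - d * ∑ i, Q.pole v (z i / y) -
        (∑ j, κ j : ℕ) * q v) =
        d * ∑ v ∈ S, Q.wt v * Q.ord v y + d * Hq Q S qo - d * ∑ i, hS Q S (z i / y) -
        (∑ j, κ j : ℕ) * Hq Q S q := by
      unfold Hq hS
      rw [Finset.sum_comm]
      simp only [Finset.mul_sum (s := S), ← Finset.sum_add_distrib, ← Finset.sum_sub_distrib]
      refine Finset.sum_congr rfl fun v _ => ?_
      rw [← Finset.mul_sum]
      ring
    rw [h1, sum_unit (hZ y hy)] at h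
    linarith
  · intro v hv
    have h1 := G_Edet (Q := Q) (v := v) (q := q v) κ φ z (fun i j => hφ _ (hz i) j v)
    rw [hq0 v hv] at h1
    simpa using h1

/-- Rank lemma. -/
lemma exists_relation {s : ℕ} (φ : Fin s → K → K) (Y : Set K)
    (h : ∀ z : Fin s → K, Function.Injective z → (∀ i, z i ∈ Y) → Edet φ z = 0) :
    ∃ β : Fin s → K, β ≠ 0 ∧ ∀ z ∈ Y, ∑ j, β j * φ j z = 0 := by
  classical
  set V : Set (Fin s → K) := (fun z : K => fun j => φ j z) '' Y with hV
  by_cases htop : Submodule.span K V = ⊤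
  · exfalso
    obtain ⟨f, hfV, -, hfli⟩ := Submodule.exists_fun_fin_finrank_span_eq K V
    have hfr : Module.finrank K (Submodule.span K V) = s := by
      rw [htop, finrank_top, Module.finrank_fin_fun]
    have hfV' : ∀ i, ∃ z ∈ Y, (fun j => φ j z) = f i := hfV
    choose g hgY hg using hfV'
    set z : Fin s → K := fun i => g (Fin.cast hfr.symm i) with hz
    have hli : LinearIndependent K (fun i : Fin s => fun j => φ j (z i)) := by
      have h1 : (fun i : Fin s => fun j => φ j (z i)) = f ∘ (Fin.cast hfr.symm) := by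
        funext i
        exact hg _
      rw [h1]
      exact hfli.comp _ (Fin.cast_injective _)
    have hdet : Edet φ z ≠ 0 := by
      unfold Edet
      have h2 : LinearIndependent K (Matrix.of fun i j => φ j (z i)).row := hli
      rw [Matrix.linearIndependent_rows_iff_isUnit, Matrix.isUnit_iff_isUnit_det] at h2
      exact h2.ne_zero
    have hzi : Function.Injective z := by
      intro a b hab
      apply hli.injective
      simp only [hab]
    exact hdet (h z hzi fun i => hgY _)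
  · obtain ⟨f, hf0, hf⟩ := Submodule.exists_le_ker_of_lt_top _ (lt_top_iff_ne_top.mpr htop)
    refine ⟨fun j => f (Pi.single j 1), ?_, ?_⟩
    · intro h0
      apply hf0
      apply LinearMap.pi_ext'
      intro j
      ext
      simpa using congrFun h0 j
    · intro z hz
      have h1 : (fun j => φ j z) ∈ Submodule.span K V :=
        Submodule.subset_span ⟨z, hz, rfl⟩
      have h2 := hf h1
      rw [LinearMap.mem_ker] at h2
      rw [← h2]
      conv_rhs => rw [← Finset.univ_sum_single (fun j => φ j z), map_sum]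
      refine Finset.sum_congr rfl fun j _ => ?_
      have h3 : Pi.single j (φ j z) = (φ j z) • (Pi.single j (1 : K) : Fin s → K) := by
        rw [← Pi.single_smul]
        simp
      rw [h3, map_smul, smul_eq_mul, mul_comm]

/-- Either there are few points, or many points cluster around one point. -/
lemma few_or_cluster {s d N : ℕ} (κ : Fin s → ℕ) (φ : Fin s → K → K) (α : Fin s → K)
    (hloss : Q.lossS ⊆ S) (hsd : s ≤ d + 1) (hsN : s ≤ N)
    (q : Q.Pl → ℤ) (Z : Finset K) (hZ : ∀ z ∈ Z, Unit' Q S z)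
    (hZq : ∀ z ∈ Z, ∀ v, - q v ≤ Q.ord v z)
    (hφ : ∀ z ∈ Z, ∀ j v, Q.G v (-(κ j * q v)) (φ j z))
    (hq0 : ∀ v, v ∉ S → q v = 0)
    (hatt : ∀ v, ∃ p : K, p ≠ 0 ∧ Q.ord v p = - q v)
    (hH : 0 ≤ Hq Q S q)
    (hrel : ∀ z ∈ Z, z ^ d = ∑ j, α j * φ j z)
    (hN : ∀ Y : Finset K, Y ⊆ Z → N < Y.card →
      ∃ z : Fin s → K, Function.Injective z ∧ (∀ i, z i ∈ Y) ∧ Edet φ z ≠ 0) :
    Z.card ≤ N * N ∨ ∃ y ∈ Z, ∃ z : Fin s → K, (∀ i, z i ∈ Z) ∧ Edet φ z ≠ 0 ∧
      ∀ i, ((d : ℤ) - (s - 1)) * hS Q S (z i / y) ≤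
        s * ((∑ j, κ j : ℕ) + (s - 1)) * Hq Q S q + tri s * Q.lossT := by
  classical
  set B : ℤ := s * ((∑ j, κ j : ℕ) + (s - 1)) * Hq Q S q + tri s * Q.lossT with hB
  have hB0 : 0 ≤ B := by
    rcases Nat.eq_zero_or_pos s with h0 | h0
    · subst h0
      simp [hB, tri]
    · have h1 : (1 : ℤ) ≤ s := by exact_mod_cast h0
      have h2 := lossT_nonneg (Q := Q)
      have h3 := tri_nonneg s
      have h4 : (0 : ℤ) ≤ s * ((∑ j, κ j : ℕ) + (s - 1)) := by
        apply mul_nonneg (by linarith)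
        have : (0 : ℤ) ≤ (∑ j, κ j : ℕ) := Int.natCast_nonneg _
        linarith
      have h5 := mul_nonneg h4 hH
      have h6 := mul_nonneg h3 h2
      linarith
  obtain ⟨Y, hYZ, hYc, hcov⟩ := exists_cover Z
    (fun x y => ((d : ℤ) - (s - 1)) * hS Q S (x / y) ≤ B) (by
      intro x hx
      have h1 : hS Q S (x / x) = 0 := by
        rw [div_self (hZ x hx).1]
        unfold hS
        refine Finset.sum_eq_zero fun v _ => ?_
        rw [pole_of_ne one_ne_zero, ord_one]
        simp
      simp only [h1, mul_zero]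
      exact hB0) N (by
      intro z hzi hz
      obtain ⟨w, hwi, hw, hwE⟩ := hN (univ.image z) (by
        intro x hx
        obtain ⟨i, -, rfl⟩ := Finset.mem_image.mp hx
        exact hz i) (by
        rw [Finset.card_image_of_injective _ hzi, Finset.card_univ, Fintype.card_fin]
        omega)
      -- another point
      obtain ⟨p, hp, hpw⟩ : ∃ p ∈ univ.image z, p ∉ univ.image w := by
        by_contra hcon
        push Not at hcon
        have h1 := Finset.card_le_card (fun x hx => hcon x hx : univ.image z ⊆ univ.image w)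
        rw [Finset.card_image_of_injective _ hzi, Finset.card_image_of_injective _ hwi,
          Finset.card_univ, Finset.card_univ, Fintype.card_fin, Fintype.card_fin] at h1
        omega
      set zz : Fin (s + 1) → K := Fin.cons p w with hzz
      have hzzY : ∀ i, zz i ∈ univ.image z := by
        intro i
        refine Fin.cases ?_ (fun i => ?_) i
        · simpa [hzz] using hp
        · have := hw i
          simpa [hzz] using this
      have hzzi : Function.Injective zz := by
        rw [hzz, Fin.cons_injective_iff]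
        refine ⟨?_, hwi⟩
        rintro ⟨i, hi⟩
        exact hpw (Finset.mem_image.mpr ⟨i, Finset.mem_univ i, hi⟩)
      have hzzZ : ∀ i, zz i ∈ Z := by
        intro i
        obtain ⟨a, -, ha⟩ := Finset.mem_image.mp (hzzY i)
        rw [← ha]
        exact hz a
      obtain ⟨i, j, hij, h1, h2⟩ := close_of_sum (Q := Q) (S := S) (d := d) (n := s)
        (κ := ∑ j, κ j) hloss hsd q hq0 hatt hH zz (Ecof φ zz) (fun a => hZ _ (hzzZ a))
        (fun a v => hZq _ (hzzZ a) v)
        (fun a v => G_Ecof κ φ zz (fun b j => hφ _ (hzzZ b) j v) a)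
        (Ecof_sum φ α zz fun a => hrel _ (hzzZ a)) ⟨0, by
          unfold Ecof
          have h1 : zz ∘ (0 : Fin (s + 1)).succAbove = w := by
            funext i
            simp [hzz]
          rw [h1]
          simpa using hwE⟩
      obtain ⟨a, -, ha⟩ := Finset.mem_image.mp (hzzY i)
      obtain ⟨b, -, hb⟩ := Finset.mem_image.mp (hzzY j)
      refine ⟨a, b, ?_, ?_, ?_⟩
      · rintro rfl
        exact hij (hzzi (ha.symm.trans hb))
      · rw [ha, hb]
        exact h1
      · rw [ha, hb]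
        exact h2)
  by_cases hcl : ∀ y ∈ Y, (Z.filter fun x => ((d : ℤ) - (s - 1)) * hS Q S (x / y) ≤ B).card ≤ N
  · left
    have h1 : Z ⊆ Y.biUnion fun y => Z.filter fun x =>
        ((d : ℤ) - (s - 1)) * hS Q S (x / y) ≤ B := by
      intro x hx
      obtain ⟨y, hy, hxy⟩ := hcov x hx
      rw [Finset.mem_biUnion]
      exact ⟨y, hy, Finset.mem_filter.mpr ⟨hx, hxy⟩⟩
    calc Z.card ≤ _ := Finset.card_le_card h1
      _ ≤ Y.card * N := Finset.card_biUnion_le_card_mul _ _ _ hcl
      _ ≤ N * N := Nat.mul_le_mul_right N hYc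
  · right
    push Not at hcl
    obtain ⟨y, hy, hyc⟩ := hcl
    obtain ⟨z, -, hz, hzE⟩ := hN _ (Finset.filter_subset _ _) hyc
    exact ⟨y, hYZ hy, z, fun i => (Finset.mem_filter.mp (hz i)).1, hzE,
      fun i => (Finset.mem_filter.mp (hz i)).2⟩

end Pool.Agent.W277.UC
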