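import Mathlib
import Pool.Agent.W277.UC.Core2

/-!
# Polynomials with a gap: large total size
-/

namespace Pool.Agent.W277.UC

open Finset Polynomial Pool.Agent.W277.UB PlaceData

variable {k K : Type*} [Field k] [Field K] [Algebra k K]

/-- `f = A X^d + (degree ≤ e)`, and `P` is a finite set stable under `f`. -/
structure StabA (e d : ℕ) (A : K) (f : K[X]) (P : Finset K) : Prop where
  hA : A ≠ 0
  hf : (f - C A * X ^ d).natDegree ≤ e
  hP : ∀ z ∈ P, f.eval z ∈ P

/-- The test functions `1, z, ..., z^e, f(z)`. -/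
noncomputable def phi (e : ℕ) (f : K[X]) (j : Fin (e + 2)) (z : K) : K :=
  if (j : ℕ) < e + 1 then z ^ (j : ℕ) else f.eval z

/-- Their weights. -/
def kap (e : ℕ) (j : Fin (e + 2)) : ℕ := if (j : ℕ) < e + 1 then (j : ℕ) else 1

lemma sum_kap (e : ℕ) : ((∑ j, kap e j : ℕ) : ℤ) = tri (e + 1) + 1 := by
  rw [Fin.sum_univ_castSucc]
  simp only [kap, Fin.val_castSucc, Fin.is_lt, if_true, Fin.val_last, lt_irrefl, if_false]
  push_cast
  rfl

lemma phi_rel {e d : ℕ} {A : K} (hA : A ≠ 0) {f : K[X]} (hf : (f - C A * X ^ d).natDegree ≤ e) :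
    ∀ z : K, z ^ d = ∑ j : Fin (e + 2), (if (j : ℕ) < e + 1 then
      -((f - C A * X ^ d).coeff j) / A else 1 / A) * phi e f j z := by
  intro z
  rw [Fin.sum_univ_castSucc]
  simp only [phi, Fin.val_castSucc, Fin.is_lt, if_true, Fin.val_last, lt_irrefl, if_false]
  have h1 : (f - C A * X ^ d).eval z = ∑ j : Fin (e + 1), (f - C A * X ^ d).coeff j * z ^ (j : ℕ) := by
    rw [eval_eq_sum_range' (show (f - C A * X ^ d).natDegree < e + 1 by omega), Finset.sum_range]
  have h2 : ∑ x : Fin (e + 1), -(f - C A * X ^ d).coeff x / A * z ^ (x : ℕ) =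
      - (∑ j : Fin (e + 1), (f - C A * X ^ d).coeff j * z ^ (j : ℕ)) / A := by
    rw [← Finset.sum_neg_distrib, Finset.sum_div]
    exact Finset.sum_congr rfl fun i _ => by ring
  rw [h2, ← h1]
  simp only [eval_sub, eval_mul, eval_C, eval_pow, eval_X]
  field_simp
  ring

/-- The polynomial attached to a relation between the test functions. -/
lemma phi_poly {e d : ℕ} {A : K} (hA : A ≠ 0) {f : K[X]} (hed : e < d)
    (hf : (f - C A * X ^ d).natDegree ≤ e) (β : Fin (e + 2) → K) (hβ : β ≠ 0) :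
    ∃ R : K[X], R ≠ 0 ∧ R.natDegree ≤ d ∧ ∀ z, R.eval z = ∑ j, β j * phi e f j z := by
  classical
  set g : K[X] := ∑ j : Fin (e + 1), C (β j.castSucc) * X ^ (j : ℕ) with hg
  have hgd : g.natDegree ≤ e := by
    rw [hg]
    apply natDegree_sum_le_of_forall_le
    intro j _
    refine (natDegree_C_mul_X_pow_le _ _).trans ?_
    have := j.is_lt
    omega
  have hgc : ∀ j : Fin (e + 1), g.coeff j = β j.castSucc := by
    intro j
    rw [hg, finsetSum_coeff]
    simp only [coeff_C_mul_X_pow]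
    rw [Finset.sum_eq_single j]
    · simp
    · intro b _ hb
      rw [if_neg]
      intro h
      exact hb (Fin.ext h.symm)
    · intro h
      exact absurd (Finset.mem_univ j) h
  have hfc : f.coeff d = A := by
    have h1 : f = (f - C A * X ^ d) + C A * X ^ d := by ring
    rw [h1, coeff_add, coeff_eq_zero_of_natDegree_lt (lt_of_le_of_lt hf hed)]
    simp
  have hfd : f.natDegree ≤ d := by
    have h1 : f = (f - C A * X ^ d) + C A * X ^ d := by ring
    rw [h1]
    refine (natDegree_add_le _ _).trans (max_le (by omega) (natDegree_C_mul_X_pow_le _ _))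
  refine ⟨g + C (β (Fin.last (e + 1))) * f, ?_, ?_, ?_⟩
  · intro h0
    apply hβ
    have h1 : β (Fin.last (e + 1)) = 0 := by
      have h2 := congrArg (fun p => coeff p d) h0
      simp only [coeff_add, coeff_C_mul, hfc, coeff_zero] at h2
      rw [coeff_eq_zero_of_natDegree_lt (lt_of_le_of_lt hgd hed), zero_add] at h2
      exact (mul_eq_zero.mp h2).resolve_right hA
    rw [h1, map_zero, zero_mul, add_zero] at h0
    funext j
    refine Fin.lastCases ?_ (fun j => ?_) j
    · exact h1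
    · rw [← hgc, h0]
      simp
  · refine (natDegree_add_le _ _).trans (max_le (by omega) ?_)
    exact (natDegree_C_mul_le _ _).trans hfd
  · intro z
    rw [Fin.sum_univ_castSucc]
    simp only [phi, Fin.val_castSucc, Fin.is_lt, if_true, Fin.val_last, lt_irrefl, if_false,
      eval_add, eval_mul, eval_C, hg, eval_finsetSum, eval_pow, eval_X]

/-- Among more than `d` points the test functions are independent. -/
lemma phi_N {e d : ℕ} {A : K} (hA : A ≠ 0) {f : K[X]} (hed : e < d)
    (hf : (f - C A * X ^ d).natDegree ≤ e) (Y : Finset K) (hY : d < Y.card) :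
    ∃ z : Fin (e + 2) → K, Function.Injective z ∧ (∀ i, z i ∈ Y) ∧ Edet (phi e f) z ≠ 0 := by
  classical
  by_contra hcon
  push Not at hcon
  obtain ⟨β, hβ, hβY⟩ := exists_relation (phi e f) (Y : Set K) (fun z hz hzY => hcon z hz hzY)
  obtain ⟨R, hR0, hRd, hR⟩ := phi_poly hA hed hf β hβ
  have h1 : Y ⊆ R.roots.toFinset := by
    intro z hz
    rw [Multiset.mem_toFinset, mem_roots hR0, IsRoot.def, hR]
    exact hβY z hz
  have h2 := Finset.card_le_card h1
  have h3 := Multiset.toFinset_card_le R.roots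
  have h4 := card_roots' R
  omega

variable {Q : PlaceData k K}

/-- The normalisation attached to a nonempty finite set. -/
noncomputable def qm (Q : PlaceData k K) (Z : Finset K) (hZ : Z.Nonempty) (v : Q.Pl) : ℤ :=
  Z.sup' hZ fun z => - Q.ord v z

lemma le_qm {Z : Finset K} (hZ : Z.Nonempty) (v : Q.Pl) {z : K} (hz : z ∈ Z) :
    - qm Q Z hZ v ≤ Q.ord v z := by
  have := Finset.le_sup' (f := fun z => - Q.ord v z) hz
  unfold qm
  linarith

lemma exists_qm {Z : Finset K} (hZ : Z.Nonempty) (v : Q.Pl) :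
    ∃ z ∈ Z, Q.ord v z = - qm Q Z hZ v := by
  obtain ⟨z, hz, h⟩ := Finset.exists_mem_eq_sup' hZ (fun z => - Q.ord v z)
  refine ⟨z, hz, ?_⟩
  unfold qm
  rw [h]
  ring

lemma qm_zero {S : Finset Q.Pl} {Z : Finset K} (hZ : Z.Nonempty) (hZS : ∀ z ∈ Z, Unit' Q S z)
    (v : Q.Pl) (hv : v ∉ S) : qm Q Z hZ v = 0 := by
  obtain ⟨z, hz, h⟩ := exists_qm hZ v
  rw [(hZS z hz).2 v hv] at h
  linarith

lemma Hq_qm_nonneg {S : Finset Q.Pl} {Z : Finset K} (hZ : Z.Nonempty)
    (hZS : ∀ z ∈ Z, Unit' Q S z) : 0 ≤ Hq Q S (qm Q Z hZ) := by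
  obtain ⟨z, hz⟩ := id hZ
  have h1 := sum_unit (hZS z hz)
  have h2 : 0 ≤ ∑ v ∈ S, (Q.wt v * qm Q Z hZ v + Q.wt v * Q.ord v z) := by
    refine Finset.sum_nonneg fun v _ => ?_
    rw [← mul_add]
    apply mul_nonneg (Q.wt_nonneg v)
    have := le_qm hZ v hz
    linarith
  rw [Finset.sum_add_distrib, h1, add_zero] at h2
  exact h2

lemma unit_supp {P : Finset K} {z : K} (hz : z ∈ P) (hz0 : z ≠ 0) : Unit' Q (supp Q P) z :=
  ⟨hz0, fun _ hv => ord_of_notMem hv hz hz0⟩

lemma lossS_subset (P : Finset K) : Q.lossS ⊆ supp Q P := by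
  classical
  unfold supp
  exact subset_union_left

/-- The size relative to the natural scale of `f`. -/
noncomputable def Hn (Q : PlaceData k K) (d : ℕ) (A : K) (S : Finset Q.Pl) (q : Q.Pl → ℤ) : ℤ :=
  ∑ v ∈ S, Q.wt v * max 0 (((d : ℤ) - 1) * q v - Q.ord v A)

/-- The bound when the total size is large. -/
theorem poly_largeC [DecidableEq K] {e d : ℕ} {A : K} {f : K[X]} {P : Finset K} (hP : StabA e d A f P)
    (hed : e + 2 ≤ d) (hP0 : (P.erase 0).Nonempty) (cc : ℤ)
    (hnum : (d + tri (e + 1)) * ((e + 2) * ((e + 2) * (tri (e + 1) + 1 + (e + 1)) + cc)) <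
      (d - (tri (e + 1) + 1)) * (d - (e + 1)))
    (hH : 0 < Hn Q d A (supp Q (insert A P)) (qm Q (P.erase 0) hP0))
    (hΛ : ((d : ℤ) - 1) * (tri (e + 2) * Q.lossT) ≤
      cc * Hn Q d A (supp Q (insert A P)) (qm Q (P.erase 0) hP0)) :
    P.card ≤ d * d + 1 := by
  set S := supp Q (insert A P) with hSd
  set Z := P.erase 0 with hZ
  set q := qm Q Z hP0 with hq
  have hA := hP.hA
  have hZP : ∀ z ∈ Z, z ∈ P := fun z hz => Finset.mem_of_mem_erase hz
  have hZ0 : ∀ z ∈ Z, z ≠ 0 := fun z hz => Finset.ne_of_mem_erase hz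
  have hZS : ∀ z ∈ Z, Unit' Q S z := fun z hz =>
    unit_supp (Finset.mem_insert_of_mem (hZP z hz)) (hZ0 z hz)
  have hAS : Unit' Q S A := unit_supp (Finset.mem_insert_self A P) hA
  have hZq : ∀ z ∈ Z, ∀ v, - q v ≤ Q.ord v z := fun z hz v => le_qm hP0 v hz
  have hPG : ∀ z ∈ P, ∀ v, Q.G v (- q v) z := by
    intro z hz v hz0
    exact hZq z (Finset.mem_erase.mpr ⟨hz0, hz⟩) v
  have hφ : ∀ z ∈ Z, ∀ j v, Q.G v (-(kap e j * q v)) (phi e f j z) := by
    intro z hz j v
    unfold kap phi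
    split_ifs with h
    · exact G_mono (G_pow (hPG z (hZP z hz) v) j) (le_of_eq (by ring))
    · exact G_mono (hPG _ (hP.hP z (hZP z hz)) v) (le_of_eq (by push_cast; ring))
  have hq0 : ∀ v, v ∉ S → q v = 0 := fun v hv => qm_zero hP0 hZS v hv
  have hatt : ∀ v, ∃ p : K, p ≠ 0 ∧ Q.ord v p = - q v := by
    intro v
    obtain ⟨p, hp, hpo⟩ := exists_qm hP0 v
    exact ⟨p, hZ0 p hp, hpo⟩
  have hHn := Hq_qm_nonneg hP0 hZS
  have hcard : P.card ≤ Z.card + 1 := by
    rw [hZ]
    have := Finset.pred_card_le_card_erase (s := P) (a := 0)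
    omega
  rcases few_or_cluster (Q := Q) (S := S) (d := d) (N := d) (kap e) (phi e f) _
    (lossS_subset _) (by omega) hed q Z hZS hZq hφ hq0 hatt hHn
    (fun z _ => phi_rel hA hP.hf z)
    (fun Y _ hY => phi_N hA (by omega) hP.hf Y hY) with h | ⟨y, hy, z, hz, hE, hcl⟩
  · omega
  exfalso
  have hy0 : y ≠ 0 := hZ0 y hy
  set C' := tri (e + 1) with hC
  have hC0 : 0 ≤ C' := tri_nonneg _
  rw [sum_kap] at hcl
  have hm0 : ∀ v, 0 ≤ ∑ i, Q.pole v (z i / y) := fun v =>
    Finset.sum_nonneg fun i _ => pole_nonneg v _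
  have hle : ∀ v i, Q.pole v (z i / y) ≤ ∑ i, Q.pole v (z i / y) := fun v i =>
    Finset.single_le_sum (f := fun i => Q.pole v (z i / y)) (fun i _ => pole_nonneg v _)
      (Finset.mem_univ i)
  have hzo : ∀ v i, Q.ord v y - ∑ i, Q.pole v (z i / y) ≤ Q.ord v (z i) := by
    intro v i
    have h1 := hle v i
    have hzi : z i ≠ 0 := hZ0 _ (hz i)
    rw [pole_of_ne (div_ne_zero hzi hy0), ord_div hzi hy0] at h1
    have := le_max_right 0 (- (Q.ord v (z i) - Q.ord v y))
    linarith
  -- first bound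
  have hb1 : ∀ v, Q.G v (d * (Q.ord v y + q v) - d * ∑ i, Q.pole v (z i / y) -
      (C' + 1) * q v) (Edet (phi e f) z) := by
    intro v hne
    obtain ⟨p, hp, hpo⟩ := exists_qm hP0 v
    have hp0 : p ≠ 0 := hZ0 p hp
    set zz : Fin (e + 2 + 1) → K := Fin.cons p z with hzz
    have hzzZ : ∀ i, zz i ∈ Z := by
      intro i
      refine Fin.cases ?_ (fun i => ?_) i
      · simpa [hzz] using hp
      · simpa [hzz] using hz i
    have hsum := Ecof_sum (phi e f) _ zz fun i => phi_rel hA hP.hf (zz i)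
    rw [Fin.sum_univ_succ] at hsum
    have h0 : Ecof (phi e f) zz 0 = Edet (phi e f) z := by
      unfold Ecof
      have h1 : zz ∘ (0 : Fin (e + 2 + 1)).succAbove = z := by
        funext i
        simp [hzz]
      rw [h1]
      simp
    rw [h0] at hsum
    simp only [hzz, Fin.cons_zero, Fin.cons_succ] at hsum
    have h1 : p ^ d * Edet (phi e f) z = - ∑ i : Fin (e + 2), z i ^ d * Ecof (phi e f) zz i.succ :=
      eq_neg_of_add_eq_zero_left hsum
    have h2 : Q.G v (d * (Q.ord v y - ∑ i, Q.pole v (z i / y)) - (C' + 1) * q v)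
        (p ^ d * Edet (phi e f) z) := by
      rw [h1]
      apply G_neg
      apply G_sum
      intro i _
      have h3 : Q.G v (Q.ord v y - ∑ i, Q.pole v (z i / y)) (z i) := fun _ => hzo v i
      have h4 := G_Ecof (Q := Q) (v := v) (q := q v) (kap e) (phi e f) zz
        (fun a j => hφ _ (hzzZ a) j v) i.succ
      rw [sum_kap] at h4
      refine G_mono (G_mul (G_pow h3 d) h4) (le_of_eq (by ring))
    have h3 := h2 (mul_ne_zero (pow_ne_zero d hp0) hne)
    rw [Q.ord_mul v _ _ (pow_ne_zero d hp0) hne, ord_pow hp0, hpo] at h3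
    linarith
  -- second bound
  have hb2 : ∀ v, Q.G v (Q.ord v A + (C' + d) * (Q.ord v y - ∑ i, Q.pole v (z i / y)))
      (Edet (phi e f) z) := by
    intro v
    -- replace the last column
    have h1 : Edet (phi e f) z = A * (Matrix.of fun (i j : Fin (e + 2)) =>
        if (j : ℕ) < e + 1 then z i ^ (j : ℕ) else z i ^ d).det := by
      set M : Matrix (Fin (e + 2)) (Fin (e + 2)) K := Matrix.of fun i j => phi e f j (z i) with hM
      set α : Fin (e + 2) → K := fun j => if (j : ℕ) < e + 1 then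
        -((f - C A * X ^ d).coeff j) / A else 1 / A with hα
      have h2 := Matrix.det_updateCol_sum M (Fin.last (e + 1)) α
      have h3 : M.updateCol (Fin.last (e + 1)) (fun i => ∑ j, α j • M i j) =
          Matrix.of fun (i j : Fin (e + 2)) =>
            if (j : ℕ) < e + 1 then z i ^ (j : ℕ) else z i ^ d := by
        ext i j
        rw [Matrix.updateCol_apply]
        by_cases hj : j = Fin.last (e + 1)
        · subst hj
          simp only [if_true, Matrix.of_apply, Fin.val_last, lt_irrefl, if_false, smul_eq_mul]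
          rw [phi_rel hA hP.hf (z i)]
          rfl
        · have hj' : (j : ℕ) < e + 1 := by
            have h4 := j.is_lt
            have h5 : (j : ℕ) ≠ e + 1 := fun h => hj (Fin.ext h)
            omega
          simp only [if_neg hj, hM, Matrix.of_apply, phi, if_pos hj']
      rw [← h3, h2]
      simp only [hα, Fin.val_last, lt_irrefl, if_false, smul_eq_mul]
      unfold Edet
      rw [← hM]
      field_simp
    rw [h1]
    apply G_mul G_self
    have h2 := G_det (Q := Q) (v := v) (Matrix.of fun (i j : Fin (e + 2)) =>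
        if (j : ℕ) < e + 1 then z i ^ (j : ℕ) else z i ^ d) (fun _ => 0)
        (fun j => (if (j : ℕ) < e + 1 then ((j : ℕ) : ℤ) else (d : ℤ)) *
          (Q.ord v y - ∑ i, Q.pole v (z i / y))) ?_
    · refine G_mono h2 (le_of_eq ?_)
      have h3 : ∑ j : Fin (e + 2), (if (j : ℕ) < e + 1 then ((j : ℕ) : ℤ) else (d : ℤ)) =
          C' + d := by
        rw [Fin.sum_univ_castSucc]
        simp only [Fin.val_castSucc, Fin.is_lt, if_true, Fin.val_last, lt_irrefl, if_false]
        rfl
      rw [Finset.sum_const_zero, zero_add, ← Finset.sum_mul, h3]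
    · intro i j
      have h3 : Q.G v (Q.ord v y - ∑ i, Q.pole v (z i / y)) (z i) := fun _ => hzo v i
      rw [Matrix.of_apply]
      split_ifs with h
      · exact G_mono (G_pow h3 _) (le_of_eq (by ring))
      · exact G_mono (G_pow h3 _) (le_of_eq (by ring))
  -- combination
  set m : Q.Pl → ℤ := fun v => ∑ i, Q.pole v (z i / y) with hm
  have hb : ∀ v, Q.G v (d * (Q.ord v y + q v) - (d + C') * m v - (C' + 1) * q v +
      (max 0 (((d : ℤ) - 1) * q v - Q.ord v A) - (((d : ℤ) - 1) * q v - Q.ord v A)))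
      (Edet (phi e f) z) := by
    intro v
    have ha : 0 ≤ Q.ord v y + q v := by
      have := hZq y hy v
      linarith
    have hmv := hm0 v
    rcases le_total 0 (((d : ℤ) - 1) * q v - Q.ord v A) with h0 | h0
    · rw [max_eq_right h0]
      refine G_mono (hb1 v) ?_
      have h7 : 0 ≤ C' * m v := mul_nonneg hC0 hmv
      have h8 : m v = ∑ i, Q.pole v (z i / y) := rfl
      rw [← h8]
      linarith
    · rw [max_eq_left h0]
      refine G_mono (hb2 v) ?_
      have h1 : 0 ≤ C' * (Q.ord v y + q v) := mul_nonneg hC0 ha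
      have h8 : m v = ∑ i, Q.pole v (z i / y) := rfl
      rw [← h8]
      linarith
  have h := sum_le_zero' (Q := Q) (S := S) hE _ (fun v _ => hb v) ?_
  · have h1 : ∑ v ∈ S, Q.wt v * (d * (Q.ord v y + q v) - (d + C') * m v - (C' + 1) * q v +
        (max 0 (((d : ℤ) - 1) * q v - Q.ord v A) - (((d : ℤ) - 1) * q v - Q.ord v A))) =
        d * ∑ v ∈ S, Q.wt v * Q.ord v y + d * Hq Q S q - (d + C') * ∑ i, hS Q S (z i / y) -
        (C' + 1) * Hq Q S q + (Hn Q d A S q - ((d - 1) * Hq Q S q -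
          ∑ v ∈ S, Q.wt v * Q.ord v A)) := by
      unfold Hq hS Hn
      rw [Finset.sum_comm]
      simp only [Finset.mul_sum (s := S), ← Finset.sum_add_distrib, ← Finset.sum_sub_distrib]
      refine Finset.sum_congr rfl fun v _ => ?_
      simp only [hm, Finset.mul_sum]
      have h5 : ∑ i, Q.wt v * ((d + C') * Q.pole v (z i / y)) =
          ∑ i, (d + C') * (Q.wt v * Q.pole v (z i / y)) :=
        Finset.sum_congr rfl fun i _ => by ring
      rw [← Finset.mul_sum, ← Finset.mul_sum, ← Finset.mul_sum]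
      ring
    rw [h1, sum_unit (hZS y hy), sum_unit hAS] at h
    set H := Hq Q S q with hHd
    set N := Hn Q d A S q with hNd
    set M := ∑ i, hS Q S (z i / y) with hMd
    -- `(d-1) H ≤ N`
    have h2 : ((d : ℤ) - 1) * H ≤ N := by
      have h3 : ((d : ℤ) - 1) * H - ∑ v ∈ S, Q.wt v * Q.ord v A ≤ N := by
        rw [hHd, hNd]
        unfold Hq Hn
        rw [Finset.mul_sum, ← Finset.sum_sub_distrib]
        refine Finset.sum_le_sum fun v _ => ?_
        have h4 := mul_le_mul_of_nonneg_left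
          (le_max_right 0 (((d : ℤ) - 1) * q v - Q.ord v A)) (Q.wt_nonneg v)
        linarith
      rw [sum_unit hAS] at h3
      linarith
    have hM0 : 0 ≤ M := Finset.sum_nonneg fun i _ => hS_nonneg S _
    have hd1 : (1 : ℤ) ≤ d - 1 := by
      have : ((e : ℤ) + 2) ≤ d := by exact_mod_cast hed
      have he : (0 : ℤ) ≤ e := Int.natCast_nonneg e
      linarith
    have hde : (0 : ℤ) < d - (e + 1) := by
      have : ((e : ℤ) + 2) ≤ d := by exact_mod_cast hed
      linarith
    have h3 : ((d : ℤ) - (e + 1)) * M ≤ (e + 2) * ((e + 2) * (C' + 1 + (e + 1)) * H +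
        tri (e + 2) * Q.lossT) := by
      rw [hMd, Finset.mul_sum]
      have h4 : ∀ i ∈ (univ : Finset (Fin (e + 2))), ((d : ℤ) - (e + 1)) * hS Q S (z i / y) ≤
          (e + 2) * (C' + 1 + (e + 1)) * H + tri (e + 2) * Q.lossT := by
        intro i _
        have h5 := hcl i
        push_cast at h5
        have e1 : (e : ℤ) + 2 - 1 = e + 1 := by ring
        rw [e1] at h5
        exact h5
      refine le_trans (Finset.sum_le_sum h4) ?_
      simp
    -- `(d-1)(d-e-1) M ≤ s (s (κ+s-1) + 1) N`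
    have h4 : ((d : ℤ) - 1) * ((d - (e + 1)) * M) ≤
        (e + 2) * ((e + 2) * (C' + 1 + (e + 1)) + cc) * N := by
      have h5 := mul_le_mul_of_nonneg_left h3 (show (0 : ℤ) ≤ d - 1 by linarith)
      have h6 : (0 : ℤ) ≤ (e + 2) * ((e + 2) * (C' + 1 + (e + 1))) := by positivity
      have h7 := mul_le_mul_of_nonneg_left h2 h6
      have h8 := mul_le_mul_of_nonneg_left hΛ (show (0 : ℤ) ≤ e + 2 by positivity)
      linarith
    -- `(d-κ) N ≤ (d-1)(d+C) M`
    have h5 : ((d : ℤ) - (C' + 1)) * N ≤ (d - 1) * ((d + C') * M) := by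
      have h6 := mul_le_mul_of_nonneg_left h (show (0 : ℤ) ≤ d - 1 by linarith)
      have h7 := mul_le_mul_of_nonneg_left h2 hC0
      nlinarith
    have h6 := mul_le_mul_of_nonneg_left h5 hde.le
    have h7 := mul_le_mul_of_nonneg_left h4 (show (0 : ℤ) ≤ d + C' by positivity)
    have h8 := mul_lt_mul_of_pos_right hnum hH
    nlinarith
  · intro v hv
    have h1 := hb v
    have h2 : ∀ i, Q.pole v (z i / y) = 0 := by
      intro i
      rw [pole_of_ne (div_ne_zero (hZ0 _ (hz i)) hy0), ord_div (hZ0 _ (hz i)) hy0,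
        (hZS _ (hz i)).2 v hv, (hZS y hy).2 v hv]
      simp
    have h3 : m v = 0 := Finset.sum_eq_zero fun i _ => h2 i
    rw [h3, hq0 v hv, (hZS y hy).2 v hv, hAS.2 v hv] at h1
    simpa using h1

/-- The bound when the total size is large, special case. -/
theorem poly_large [DecidableEq K] {e d : ℕ} {A : K} {f : K[X]} {P : Finset K} (hP : StabA e d A f P)
    (hed : e + 2 ≤ d) (hP0 : (P.erase 0).Nonempty)
    (hnum : (d + tri (e + 1)) * ((e + 2) * ((e + 2) * (tri (e + 1) + 1 + (e + 1)) + 1)) <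
      (d - (tri (e + 1) + 1)) * (d - (e + 1)))
    (hH : 0 < Hn Q d A (supp Q (insert A P)) (qm Q (P.erase 0) hP0))
    (hΛ : ((d : ℤ) - 1) * (tri (e + 2) * Q.lossT) ≤
      Hn Q d A (supp Q (insert A P)) (qm Q (P.erase 0) hP0)) :
    P.card ≤ d * d + 1 :=
  poly_largeC hP hed hP0 1 hnum hH (by rwa [one_mul])

end Pool.Agent.W277.UC
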