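import Mathlib
import Pool.Agent.W277.UC.Poly
import Pool.Agent.W277.UB.Small

/-!
# Polynomials with a gap: small total size
-/

namespace Pool.Agent.W277.UC

open Finset Polynomial Pool.Agent.W277.UB PlaceData

variable {k K : Type*} [Field k] [Field K] [Algebra k K]
variable {Q : PlaceData k K}

lemma lead_f {e d : ℕ} {A : K} {f : K[X]} (hA : A ≠ 0)
    (hf : (f - C A * X ^ d).natDegree ≤ e) (hed : e < d) :
    f.natDegree = d ∧ f.leadingCoeff = A ∧ f ≠ 0 := by
  have h1 : f = (f - C A * X ^ d) + C A * X ^ d := by ring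
  have h2 : (f - C A * X ^ d).degree < (C A * X ^ d : K[X]).degree := by
    rw [degree_C_mul_X_pow _ hA]
    refine lt_of_le_of_lt degree_le_natDegree ?_
    exact_mod_cast lt_of_le_of_lt hf hed
  have h3 : f.natDegree = d := by
    rw [h1, natDegree_add_eq_right_of_degree_lt h2, natDegree_C_mul_X_pow _ _ hA]
  have h4 : f.leadingCoeff = A := by
    rw [h1, leadingCoeff_add_of_degree_lt h2]
    simp
  refine ⟨h3, h4, ?_⟩
  rintro rfl
  rw [leadingCoeff_zero] at h4
  exact hA h4.symm

/-- One refinement step. -/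
lemma col_stepA {e d : ℕ} {A : K} {f : K[X]} {P : Finset K} (hS : StabA e d A f P) (hd : 2 ≤ d)
    (hed : e < d) (v : Q.Pl) (m : ℤ) (hm : Q.ord v A < (d - 1) * m) (N : ℕ)
    (h : Col P N fun z z' => Q.G v (-m) (z - z')) :
    Col P (N * d) fun z z' => Q.G v (-(m - 1)) (z - z') := by
  classical
  obtain ⟨hfd, hfl, hf0⟩ := lead_f hS.hA hS.hf hed
  obtain ⟨c, hc1, hc2⟩ := h
  have hA := hS.hA
  have key : ∀ a : ℕ, Col (P.filter fun z => c (f.eval z) = a) d
      fun z z' => Q.G v (-(m - 1)) (z - z') := by
    intro a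
    apply col_of_inj
    · intro x y hxy
      have := G_neg hxy
      rwa [neg_sub x y] at this
    · intro x y z hxy hyz
      have := G_add hxy hyz
      rwa [sub_add_sub_cancel] at this
    · intro x
      rw [sub_self]
      exact G_zero
    · intro z hzi hz
      by_contra hcon
      push Not at hcon
      have hzP : ∀ i, z i ∈ P := fun i => (Finset.mem_filter.mp (hz i)).1
      have hza : ∀ i, c (f.eval (z i)) = a := fun i => (Finset.mem_filter.mp (hz i)).2
      set F : K[X] := f - C (f.eval (z 0)) with hF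
      have hfdeg : f.degree = ((d : ℕ) : WithBot ℕ) := by
        rw [degree_eq_natDegree hf0, hfd]
      have hCd : (C (f.eval (z 0)) : K[X]).degree < f.degree := by
        refine lt_of_le_of_lt degree_C_le ?_
        rw [hfdeg]
        exact_mod_cast (show 0 < d by omega)
      have hFl : F.leadingCoeff = A := by
        rw [hF, leadingCoeff_sub_of_degree_lt hCd, hfl]
      have hFd : F.degree = ((d : ℕ) : WithBot ℕ) := by
        rw [hF, degree_sub_eq_left_of_degree_lt hCd, hfdeg]
      have hlag := Lagrange.leadingCoeff_eq_sum (s := univ) (v := z) hzi.injOn (P := F) (by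
        rw [Finset.card_univ, Fintype.card_fin, hFd]
        norm_cast)
      have hG : Q.G v ((d - 1) * m) A := by
        rw [← hFl, hlag]
        apply G_sum
        intro i _
        have h1 : Q.G v (-m) (F.eval (z i)) := by
          have h2 := hc2 _ (hS.hP _ (hzP i)) _ (hS.hP _ (hzP 0)) ((hza i).trans (hza 0).symm)
          simpa [hF] using h2
        intro hne
        have hden : ∏ j ∈ univ.erase i, (z i - z j) ≠ 0 := by
          rw [Finset.prod_ne_zero_iff]
          intro j hj
          rw [sub_ne_zero]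
          exact fun h => (Finset.ne_of_mem_erase hj) (hzi h).symm
        have hnum : F.eval (z i) ≠ 0 := by
          intro h
          rw [h, zero_div] at hne
          exact hne rfl
        rw [ord_div hnum hden]
        have h3 := h1 hnum
        have h4 : Q.ord v (∏ j ∈ univ.erase i, (z i - z j)) ≤ -(d * m) := by
          have h5 : ∀ s : Finset (Fin (d + 1)), (∀ j ∈ s, j ≠ i) →
              Q.ord v (∏ j ∈ s, (z i - z j)) ≤ -(s.card * m) := by
            intro s
            induction s using Finset.induction_on with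
            | empty => intro _; simp [ord_one]
            | insert b s hb ih =>
              intro hs
              have hbi : b ≠ i := hs b (mem_insert_self b s)
              have hzb : z i - z b ≠ 0 := by
                rw [sub_ne_zero]
                exact fun h => hbi (hzi h).symm
              have hpr : ∏ j ∈ s, (z i - z j) ≠ 0 := by
                rw [Finset.prod_ne_zero_iff]
                intro j hj
                rw [sub_ne_zero]
                exact fun h => (hs j (mem_insert_of_mem hj)) (hzi h).symm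
              rw [Finset.prod_insert hb, Q.ord_mul v _ _ hzb hpr, Finset.card_insert_of_notMem hb]
              have h6 := ih fun j hj => hs j (mem_insert_of_mem hj)
              have h7 := hcon i b hbi.symm
              have h8 : Q.ord v (z i - z b) < -(m - 1) := by
                by_contra h9
                exact h7 fun _ => not_lt.mp h9
              push_cast
              linarith
          have h6 := h5 (univ.erase i) fun j hj => Finset.ne_of_mem_erase hj
          rw [Finset.card_erase_of_mem (Finset.mem_univ i), Finset.card_univ, Fintype.card_fin,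
            Nat.add_sub_cancel] at h6
          exact h6
        linarith
      have h2 := hG hA
      linarith
  choose g hg1 hg2 using key
  refine ⟨fun z => c (f.eval z) * d + g (c (f.eval z)) z, ?_, ?_⟩
  · intro z hz
    have h3 := hc1 _ (hS.hP z hz)
    have h4 := hg1 (c (f.eval z)) z (Finset.mem_filter.mpr ⟨hz, rfl⟩)
    calc c (f.eval z) * d + g (c (f.eval z)) z < c (f.eval z) * d + d := by omega
      _ = (c (f.eval z) + 1) * d := by ring
      _ ≤ N * d := Nat.mul_le_mul_right _ h3
  · intro z hz z' hz' h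
    simp only at h
    have h3 := hg1 (c (f.eval z)) z (Finset.mem_filter.mpr ⟨hz, rfl⟩)
    have h4 := hg1 (c (f.eval z')) z' (Finset.mem_filter.mpr ⟨hz', rfl⟩)
    have hd0 : 0 < d := by omega
    have h5 : c (f.eval z) = c (f.eval z') := by
      have h6 : (c (f.eval z) * d + g (c (f.eval z)) z) / d =
        (c (f.eval z') * d + g (c (f.eval z')) z') / d := congrArg (· / d) h
      rwa [Nat.add_comm, Nat.add_mul_div_right _ _ hd0, Nat.div_eq_of_lt h3,
        Nat.add_comm (c (f.eval z') * d),
        Nat.add_mul_div_right _ _ hd0, Nat.div_eq_of_lt h4, Nat.zero_add, Nat.zero_add] at h6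
    rw [← h5] at h
    exact hg2 (c (f.eval z)) z (Finset.mem_filter.mpr ⟨hz, rfl⟩) z'
      (Finset.mem_filter.mpr ⟨hz', h5.symm⟩) (by omega)

/-- The natural scale at a place. -/
noncomputable def sst (Q : PlaceData k K) (d : ℕ) (A : K) (v : Q.Pl) : ℤ :=
  Q.ord v A / ((d : ℤ) - 1)

/-- At one place, `P` splits into few classes with differences at the natural scale. -/
lemma col_placeA [DecidableEq K] {e d : ℕ} {A : K} {f : K[X]} {P : Finset K}
    (hS : StabA e d A f P) (hd : 2 ≤ d) (hed : e < d)
    (hP0 : (P.erase 0).Nonempty) (v : Q.Pl) :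
    Col P (d ^ (max 0 (((d : ℤ) - 1) * qm Q (P.erase 0) hP0 v - Q.ord v A)).toNat)
      fun z z' => Q.G v (-(sst Q d A v)) (z - z') := by
  set q := qm Q (P.erase 0) hP0 v with hq
  set s := sst Q d A v with hs
  have hd1 : (0 : ℤ) < (d : ℤ) - 1 := by
    have : (2 : ℤ) ≤ d := by exact_mod_cast hd
    linarith
  have hs1 : (d - 1) * s ≤ Q.ord v A := by
    rw [hs]
    unfold sst
    rw [mul_comm]
    exact Int.ediv_mul_le _ hd1.ne'
  have hs2 : Q.ord v A < (d - 1) * (s + 1) := by
    have := Int.lt_ediv_add_one_mul_self (Q.ord v A) hd1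
    rw [hs]
    unfold sst
    linarith
  have hPG : ∀ z ∈ P, Q.G v (- q) z := by
    intro z hz hz0
    exact le_qm hP0 v (Finset.mem_erase.mpr ⟨hz0, hz⟩)
  have key : ∀ M : ℕ, (M : ℤ) ≤ max 0 (q - s) →
      Col P (d ^ M) fun z z' => Q.G v (-(q - M)) (z - z') := by
    intro M
    induction M with
    | zero =>
      intro _
      refine ⟨fun _ => 0, fun _ _ => by simp, fun z hz z' hz' _ => ?_⟩
      simp only [Nat.cast_zero, sub_zero]
      exact G_sub (hPG z hz) (hPG z' hz')
    | succ M ih =>
      intro hM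
      push_cast at hM
      have hM' : (M : ℤ) + 1 ≤ q - s := by
        rcases le_max_iff.mp hM with h | h
        · have : (0 : ℤ) ≤ M := Int.natCast_nonneg M
          linarith
        · exact h
      have h1 := col_stepA hS hd hed v (q - M) (by
        have : (d - 1) * (s + 1) ≤ (d - 1) * (q - M) :=
          mul_le_mul_of_nonneg_left (by linarith) hd1.le
        linarith) _ (ih (by push_cast; exact le_max_of_le_right (by linarith)))
      rw [← pow_succ] at h1
      refine h1.mono fun z _ z' _ h => ?_
      refine G_mono h (le_of_eq ?_)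
      push_cast
      ring
  have h1 := key (max 0 (q - s)).toNat (by rw [Int.toNat_of_nonneg (le_max_left _ _)])
  rw [Int.toNat_of_nonneg (le_max_left _ _)] at h1
  have h2 : (max 0 (q - s)).toNat ≤ (max 0 (((d : ℤ) - 1) * q - Q.ord v A)).toNat := by
    apply Int.toNat_le_toNat
    apply max_le (le_max_left _ _)
    rcases le_or_gt (q - s) 0 with h | h
    · exact le_max_of_le_left h
    · apply le_max_of_le_right
      · have h4 : 1 ≤ q - s := h
        have h5 : ((d : ℤ) - 1 - 1) * 1 ≤ ((d : ℤ) - 1 - 1) * (q - s - 1) + ((d : ℤ) - 1 - 1) * 1 := by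
          have : (0 : ℤ) ≤ ((d : ℤ) - 1 - 1) * (q - s - 1) := by
            apply mul_nonneg <;> linarith
          linarith
        -- `(d-1)(q-s) - (q - s) ≥ (d-2)(q-s) ≥ d-2 ≥ ord A - (d-1) s`
        have h6 : Q.ord v A - (d - 1) * s ≤ d - 2 := by
          have : Q.ord v A < (d - 1) * s + (d - 1) := by linarith
          linarith
        nlinarith
  refine (h1.mono' (Nat.pow_le_pow_right (by omega) h2)).mono ?_
  intro z _ z' _ h
  refine G_mono h ?_
  have := le_max_right 0 (q - s)
  linarith

/-- `P` splits into few classes with differences at the natural scale. -/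
lemma col_allA [DecidableEq K] {e d : ℕ} {A : K} {f : K[X]} {P : Finset K}
    (hS : StabA e d A f P) (hd : 2 ≤ d) (hed : e < d)
    (hP0 : (P.erase 0).Nonempty) (Q : PlaceData k K) :
    Col P (d ^ (Hn Q d A (supp Q (insert A P)) (qm Q (P.erase 0) hP0)).toNat)
      fun z z' => ∀ v, Q.G v (-(sst Q d A v)) (z - z') := by
  set q := qm Q (P.erase 0) hP0 with hq
  have key : ∀ s : Finset Q.Pl,
      Col P (d ^ (∑ v ∈ s, max 0 (((d : ℤ) - 1) * q v - Q.ord v A)).toNat)
      fun z z' => ∀ v ∈ s, Q.G v (-(sst Q d A v)) (z - z') := by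
    classical
    intro s
    induction s using Finset.induction_on with
    | empty =>
      refine ⟨fun _ => 0, fun _ _ => by simp, fun z hz z' hz' _ => ?_⟩
      simp
    | insert a s ha ih =>
      have h1 := (col_placeA hS hd hed hP0 a).inter ih
      rw [← pow_add] at h1
      rw [Finset.sum_insert ha, Int.toNat_add (le_max_left _ _)
        (Finset.sum_nonneg fun v _ => le_max_left _ _)]
      refine h1.mono fun z _ z' _ h v hv => ?_
      rcases Finset.mem_insert.mp hv with rfl | hv
      · exact h.1
      · exact h.2 v hv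
  have h1 := key (supp Q (insert A P))
  have h2 : ∑ v ∈ supp Q (insert A P), max 0 (((d : ℤ) - 1) * q v - Q.ord v A) ≤
      Hn Q d A (supp Q (insert A P)) q := by
    unfold Hn
    refine Finset.sum_le_sum fun v _ => ?_
    have := mul_le_mul_of_nonneg_right (Q.wt_one v)
      (le_max_left 0 (((d : ℤ) - 1) * q v - Q.ord v A))
    linarith
  refine (h1.mono' (Nat.pow_le_pow_right (by omega) (Int.toNat_le_toNat h2))).mono ?_
  intro z hz z' hz' h v
  by_cases hv : v ∈ supp Q (insert A P)
  · exact h v hv
  · have hA0 : Q.ord v A = 0 := ord_of_notMem hv (Finset.mem_insert_self A P) hS.hA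
    have hs0 : sst Q d A v = 0 := by
      unfold sst
      rw [hA0, Int.zero_ediv]
    rw [hs0, neg_zero]
    have hPG : ∀ z ∈ P, Q.G v 0 z := by
      intro z hz hz0
      exact le_of_eq (ord_of_notMem hv (Finset.mem_insert_of_mem hz) hz0).symm
    exact G_sub (hPG z hz) (hPG z' hz')

/-- Elements at the natural scale. -/
lemma scale_const {d : ℕ} (hd : 2 ≤ d) {A x : K} (hA : A ≠ 0) (hx : x ≠ 0)
    (h : ∀ v, Q.G v (-(sst Q d A v)) x) :
    (∃ c : k, algebraMap k K c = A * x ^ (d - 1)) ∧
      ∀ v, ((d : ℤ) - 1) * Q.ord v x = - Q.ord v A := by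
  have hd1 : (0 : ℤ) < (d : ℤ) - 1 := by
    have : (2 : ℤ) ≤ d := by exact_mod_cast hd
    linarith
  have hcast : ((d - 1 : ℕ) : ℤ) = (d : ℤ) - 1 := by
    push_cast [Nat.cast_sub (show 1 ≤ d by omega)]
    ring
  have hne : A * x ^ (d - 1) ≠ 0 := mul_ne_zero hA (pow_ne_zero _ hx)
  have hord : ∀ v, Q.ord v (A * x ^ (d - 1)) = Q.ord v A + ((d : ℤ) - 1) * Q.ord v x := by
    intro v
    rw [Q.ord_mul v _ _ hA (pow_ne_zero _ hx), ord_pow hx, hcast]
  have h1 : ∀ v, 0 ≤ Q.ord v (A * x ^ (d - 1)) := by
    intro v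
    rw [hord]
    have h2 := h v hx
    have h3 : (d - 1) * sst Q d A v ≤ Q.ord v A := by
      unfold sst
      rw [mul_comm]
      exact Int.ediv_mul_le _ hd1.ne'
    have h4 := mul_le_mul_of_nonneg_left h2 hd1.le
    linarith
  obtain ⟨c, hc⟩ := Q.const _ hne h1
  refine ⟨⟨c, hc⟩, fun v => ?_⟩
  have hc0 : c ≠ 0 := by
    rintro rfl
    rw [map_zero] at hc
    exact hne hc.symm
  have h2 := Q.ord_alg v c hc0
  rw [hc, hord] at h2
  linarith

lemma const_of_ord {x : K} (hx : x ≠ 0) (h : ∀ v, Q.ord v x = 0) :
    ∃ c : k, algebraMap k K c = x := Q.const x hx fun v => (h v).symm.le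

/-- Growth. -/
lemma no_const {d : ℕ} (hd : 2 ≤ d) (Q : PlaceData k K) (h : k[X]) (hhd : h.natDegree = d)
    (c0 : K) (hc0 : ¬ ∃ t : k, algebraMap k K t = c0) (P : Finset K) (hc0P : c0 ∈ P)
    (hP : ∀ z ∈ P, (h.map (algebraMap k K) + C c0).eval z ∈ P) : False := by
  have hc00 : c0 ≠ 0 := by
    rintro rfl
    exact hc0 ⟨0, map_zero _⟩
  obtain ⟨v, hv⟩ : ∃ v, Q.ord v c0 < 0 := by
    by_contra hcon2
    push Not at hcon2
    exact hc0 (Q.const c0 hc00 hcon2)
  have hq1 : 1 ≤ qq Q P v := by
    have h1 := pole_le_qq hc0P v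
    rw [pole_of_ne hc00] at h1
    have := le_max_right 0 (- Q.ord v c0)
    omega
  obtain ⟨p, hp, hp0, hpo⟩ := exists_qq (show 0 < qq Q P v by omega)
  set q := qq Q P v with hq
  set a := h.leadingCoeff with ha
  have ha0 : a ≠ 0 := by
    rw [ha, Ne, leadingCoeff_eq_zero]
    rintro rfl
    rw [natDegree_zero] at hhd
    omega
  set g : k[X] := h.eraseLead with hg
  have hgd : g.natDegree < d := by
    rw [← hhd]
    apply eraseLead_natDegree_lt_or_eraseLead_eq_zero h |>.elim
    · exact id
    · intro h0
      rw [hg, h0, natDegree_zero]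
      omega
  have hlow : algebraMap k K a * p ^ d = (h.map (algebraMap k K) + C c0).eval p - c0 -
      (g.map (algebraMap k K)).eval p := by
    have h1 : h = g + C a * X ^ d := by
      rw [hg, ha, ← hhd, eraseLead_add_C_mul_X_pow]
    conv_rhs => rw [h1]
    simp only [Polynomial.map_add, Polynomial.map_mul, map_C, Polynomial.map_pow, map_X, eval_add,
      eval_mul, eval_C, eval_pow, eval_X]
    ring
  have hlowG : Q.G v (-((d - 1) * q)) ((g.map (algebraMap k K)).eval p) := by
    rw [eval_eq_sum_range' (n := d) (lt_of_le_of_lt natDegree_map_le hgd)]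
    apply G_sum
    intro j hj
    have hj' : j < d := Finset.mem_range.mp hj
    rw [coeff_map]
    have h3 := G_mul (G_alg (Q := Q) (v := v) (g.coeff j))
      (G_pow (G_self (Q := Q) (v := v) (x := p)) j)
    refine G_mono h3 ?_
    rw [hpo, zero_add]
    have h4 : (j : ℤ) ≤ d - 1 := by omega
    nlinarith
  have h2d : (2 : ℤ) ≤ d := by exact_mod_cast hd
  have hpd : Q.G v (-((d - 1) * q)) (algebraMap k K a * p ^ d) := by
    rw [hlow]
    apply G_sub _ hlowG
    apply G_sub
    · refine G_mono (G_of_pole_le (pole_le_qq (hP p hp) v)) ?_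
      rw [← hq]
      nlinarith
    · refine G_mono (G_of_pole_le (pole_le_qq hc0P v)) ?_
      rw [← hq]
      nlinarith
  have ha1 : algebraMap k K a ≠ 0 := by
    rw [Ne, map_eq_zero]
    exact ha0
  have h1 := hpd (mul_ne_zero ha1 (pow_ne_zero d hp0))
  rw [Q.ord_mul v _ _ ha1 (pow_ne_zero d hp0), Q.ord_alg v a ha0, ord_pow hp0, hpo] at h1
  nlinarith

end Pool.Agent.W277.UC
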