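import Mathlib
import Pool.Agent.W277.UC.PolySmall

/-!
# Polynomials with a gap: small total size, conclusion
-/

namespace Pool.Agent.W277.UC

open Finset Polynomial Pool.Agent.W277.UB PlaceData

variable {k K : Type*} [Field k] [Field K] [Algebra k K]
variable {Q : PlaceData k K}

/-- The conjugate of `f` by the scaling `X ↦ y X`. -/
noncomputable def scal (y : K) (f : K[X]) : K[X] := C y⁻¹ * f.comp (C y * X)

lemma eval_scal (y : K) (f : K[X]) (z : K) : (scal y f).eval z = y⁻¹ * f.eval (y * z) := by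
  simp [scal, eval_comp]

lemma natDegree_scal {y : K} (hy : y ≠ 0) (f : K[X]) : (scal y f).natDegree = f.natDegree := by
  unfold scal
  rw [natDegree_C_mul (inv_ne_zero hy), natDegree_comp, natDegree_C_mul_X y hy, mul_one]

/-- Few points if the total size is small. -/
theorem small_A [CharZero k] [DecidableEq K] {e d : ℕ} {A : K} {f : K[X]} {P : Finset K}
    (hS : StabA e d A f P)
    (hd : 2 ≤ d) (hed : e + 1 < d) (hP0 : (P.erase 0).Nonempty) (Q : PlaceData k K)
    (hf : ¬ ∃ y : K, y ≠ 0 ∧ ∃ g : k[X], g.map (algebraMap k K) = scal y f) :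
    P.card ≤ d ^ (2 * (Hn Q d A (supp Q (insert A P)) (qm Q (P.erase 0) hP0)).toNat + 1) := by
  classical
  obtain ⟨hfd, hfl, hf0⟩ := lead_f hS.hA hS.hf (show e < d by omega)
  obtain ⟨c, hc1, hc2⟩ := col_allA hS hd (show e < d by omega) hP0 Q
  have hA := hS.hA
  set N := d ^ (Hn Q d A (supp Q (insert A P)) (qm Q (P.erase 0) hP0)).toNat with hN
  by_contra hcon
  push Not at hcon
  have hcard : (Finset.range N ×ˢ Finset.range N).card * d < P.card := by
    rw [Finset.card_product, Finset.card_range]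
    refine lt_of_le_of_lt (le_of_eq ?_) hcon
    rw [hN]
    ring
  obtain ⟨⟨a, b⟩, -, hab⟩ := Finset.exists_lt_card_fiber_of_mul_lt_card_of_maps_to
    (s := P) (t := Finset.range N ×ˢ Finset.range N) (f := fun z => (c z, c (f.eval z))) (by
      intro z hz
      rw [Finset.mem_product, Finset.mem_range, Finset.mem_range]
      exact ⟨hc1 z hz, hc1 _ (hS.hP z hz)⟩) hcard
  set B := P.filter fun z => (c z, c (f.eval z)) = (a, b) with hB
  obtain ⟨z0, hz0, z1, hz1, hz01⟩ := Finset.one_lt_card.mp (show 1 < B.card by omega)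
  have hBP : ∀ z ∈ B, z ∈ P := fun z hz => (Finset.mem_filter.mp hz).1
  have hBc : ∀ z ∈ B, c z = a ∧ c (f.eval z) = b := by
    intro z hz
    have h := (Finset.mem_filter.mp hz).2
    exact ⟨congrArg Prod.fst h, congrArg Prod.snd h⟩
  have hG : ∀ z ∈ B, ∀ v, Q.G v (-(sst Q d A v)) (z - z0) := fun z hz =>
    hc2 z (hBP z hz) z0 (hBP z0 hz0) ((hBc z hz).1.trans (hBc z0 hz0).1.symm)
  have hG' : ∀ z ∈ B, ∀ v, Q.G v (-(sst Q d A v)) (f.eval z - f.eval z0) := fun z hz =>
    hc2 _ (hS.hP z (hBP z hz)) _ (hS.hP z0 (hBP z0 hz0)) ((hBc z hz).2.trans (hBc z0 hz0).2.symm)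
  set y : K := z1 - z0 with hyd
  have hy : y ≠ 0 := by
    rw [hyd, sub_ne_zero]
    exact hz01.symm
  obtain ⟨⟨cA, hcA⟩, hyo⟩ := scale_const hd hA hy (hG z1 hz1)
  have hcA0 : cA ≠ 0 := by
    rintro rfl
    rw [map_zero] at hcA
    exact mul_ne_zero hA (pow_ne_zero _ hy) hcA.symm
  have hd1 : (0 : ℤ) < (d : ℤ) - 1 := by
    have : (2 : ℤ) ≤ d := by exact_mod_cast hd
    linarith
  have hconst : ∀ x : K, (∀ v, Q.G v (-(sst Q d A v)) x) → ∃ t : k, algebraMap k K t = x / y := by
    intro x hx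
    rcases eq_or_ne x 0 with rfl | hx0
    · exact ⟨0, by simp⟩
    · obtain ⟨-, hxo⟩ := scale_const hd hA hx0 hx
      apply const_of_ord (Q := Q) (div_ne_zero hx0 hy)
      intro v
      rw [ord_div hx0 hy]
      have h1 := hxo v
      have h2 := hyo v
      have h3 : ((d : ℤ) - 1) * (Q.ord v x - Q.ord v y) = 0 := by
        rw [mul_sub, h1, h2, sub_self]
      rcases mul_eq_zero.mp h3 with h4 | h4
      · exact absurd h4 hd1.ne'
      · exact h4
  set w0 := f.eval z0 with hw0
  set F : K[X] := C y⁻¹ * (f.comp (C y * X + C z0) - C w0) with hF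
  have hlin : (C y * X + C z0 : K[X]).natDegree = 1 := natDegree_linear hy
  have hFd : F.natDegree ≤ d := by
    rw [hF, natDegree_C_mul (inv_ne_zero hy)]
    refine (natDegree_sub_le _ _).trans (max_le ?_ ?_)
    · refine natDegree_comp_le.trans ?_
      rw [hfd, hlin, mul_one]
    · rw [natDegree_C]
      exact Nat.zero_le _
  obtain ⟨h, hh⟩ := const_poly (k := k) hFd (P := B.image fun z => (z - z0) / y) (by
    intro x hx
    obtain ⟨z, hz, rfl⟩ := Finset.mem_image.mp hx
    exact hconst _ (hG z hz)) (by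
    intro x hx
    obtain ⟨z, hz, rfl⟩ := Finset.mem_image.mp hx
    have h1 : F.eval ((z - z0) / y) = (f.eval z - w0) / y := by
      have h2 : y * ((z - z0) / y) + z0 = z := by
        field_simp
        ring
      simp only [hF, eval_mul, eval_C, eval_sub, eval_comp, eval_add, eval_X, h2]
      field_simp
    rw [h1]
    exact hconst _ (hG' z hz)) (by
    rw [Finset.card_image_of_injective]
    · exact hab
    · intro x x' hxx
      have h2 : (x - z0) / y = (x' - z0) / y := hxx
      rw [div_left_inj' hy] at h2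
      simpa using h2)
  -- the subleading coefficient
  have hco : F.coeff (d - 1) = d * (A * y ^ (d - 1)) * (z0 / y) := by
    have h1 : f = (f - C A * X ^ d) + C A * X ^ d := by ring
    have h2 : F = C y⁻¹ * ((f - C A * X ^ d).comp (C y * X + C z0)) +
        (C (y⁻¹ * A * y ^ d) * (X + C (z0 / y)) ^ d - C (y⁻¹ * w0)) := by
      rw [hF]
      conv_lhs => rw [h1]
      rw [add_comp, mul_comp, C_comp, X_pow_comp]
      have h3 : (C y * X + C z0 : K[X]) = C y * (X + C (z0 / y)) := by
        rw [mul_add, ← C_mul]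
        congr 2
        field_simp
      rw [h3, mul_pow]
      simp only [C_mul, C_pow]
      ring
    rw [h2, coeff_add, coeff_sub, coeff_C_of_ne_zero (by omega), sub_zero]
    have h3 : (C y⁻¹ * ((f - C A * X ^ d).comp (C y * X + C z0))).coeff (d - 1) = 0 := by
      rw [coeff_C_mul]
      have h4 : ((f - C A * X ^ d).comp (C y * X + C z0)).coeff (d - 1) = 0 := by
        apply coeff_eq_zero_of_natDegree_lt
        refine lt_of_le_of_lt natDegree_comp_le ?_
        rw [hlin, mul_one]
        exact lt_of_le_of_lt hS.hf (by omega)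
      rw [h4, mul_zero]
    rw [h3, zero_add, coeff_C_mul, coeff_X_add_C_pow]
    have h4 : d - (d - 1) = 1 := by omega
    have h5 : d.choose (d - 1) = d := by
      have h6 := Nat.choose_symm (n := d) (k := 1) (by omega)
      rwa [Nat.choose_one_right] at h6
    rw [h4, h5, pow_one]
    have h6 : y ^ d = y ^ (d - 1) * y := by
      rw [← pow_succ]
      congr 1
      omega
    rw [h6]
    field_simp
  have hz0c : ∃ t : k, algebraMap k K t = z0 / y := by
    refine ⟨h.coeff (d - 1) / (d * cA), ?_⟩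
    have h1 : algebraMap k K (h.coeff (d - 1)) = d * (A * y ^ (d - 1)) * (z0 / y) := by
      rw [← coeff_map, hh, hco]
    have h2 : (d : k) ≠ 0 := by
      rw [Nat.cast_ne_zero]
      omega
    have h3 : (d : K) ≠ 0 := by
      rw [← map_natCast (algebraMap k K)]
      exact (_root_.map_ne_zero _).mpr h2
    have h4 : A * y ^ (d - 1) ≠ 0 := mul_ne_zero hA (pow_ne_zero _ hy)
    rw [map_div₀, h1, map_mul, map_natCast, hcA]
    field_simp
  obtain ⟨t0, ht0⟩ := hz0c
  have hfF : (h.comp (X - C t0)).map (algebraMap k K) = scal y f - C (w0 / y) := by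
    rw [map_comp, hh, Polynomial.map_sub, map_X, map_C, ht0, hF, mul_comp, C_comp, sub_comp,
      C_comp, comp_assoc]
    have h3 : (C y * X + C z0 : K[X]).comp (X - C (z0 / y)) = C y * X := by
      simp only [add_comp, mul_comp, C_comp, X_comp]
      rw [mul_sub, ← C_mul, mul_div_cancel₀ z0 hy]
      ring
    rw [h3]
    unfold scal
    rw [mul_sub, ← C_mul]
    congr 3
    field_simp
  have hw0c : ¬ ∃ t : k, algebraMap k K t = w0 / y := by
    rintro ⟨t, ht⟩
    apply hf
    refine ⟨y, hy, h.comp (X - C t0) + C t, ?_⟩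
    rw [Polynomial.map_add, hfF, map_C, ht]
    ring
  refine no_const hd Q (h.comp (X - C t0)) ?_ (w0 / y) hw0c (P.image fun z => z / y)
    (Finset.mem_image.mpr ⟨w0, hS.hP z0 (hBP z0 hz0), rfl⟩) ?_
  · rw [← natDegree_map (algebraMap k K), hfF, natDegree_sub_C, natDegree_scal hy, hfd]
  · intro x hx
    obtain ⟨z, hz, rfl⟩ := Finset.mem_image.mp hx
    rw [hfF, sub_add_cancel, eval_scal, mul_div_cancel₀ z hy]
    exact Finset.mem_image.mpr ⟨f.eval z, hS.hP z hz, by field_simp⟩

lemma numericA (e d : ℕ) (h : (e + 2) ^ 4 ≤ d) :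
    2 ≤ d ∧ e + 2 ≤ d ∧
    (d + tri (e + 1)) * ((e + 2) * ((e + 2) * (tri (e + 1) + 1 + (e + 1)) + 1)) <
      ((d : ℤ) - (tri (e + 1) + 1)) * (d - (e + 1)) := by
  have h' : ((e : ℤ) + 2) ^ 4 ≤ d := by exact_mod_cast h
  have he : (0 : ℤ) ≤ e := Int.natCast_nonneg e
  have t1 := two_tri (e + 1)
  push_cast at t1
  have he2 : (0 : ℤ) ≤ (e : ℤ) ^ 2 := by positivity
  have he3 : (0 : ℤ) ≤ (e : ℤ) ^ 3 := by positivity
  have he4 : (0 : ℤ) ≤ (e : ℤ) ^ 4 := by positivity
  have hexp : ((e : ℤ) + 2) ^ 4 = e ^ 4 + 8 * e ^ 3 + 24 * e ^ 2 + 32 * e + 16 := by ring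
  refine ⟨?_, ?_, ?_⟩
  · zify
    linarith
  · zify
    linarith
  · obtain ⟨D, hD⟩ : ∃ D : ℤ, D = d - (e + 2) ^ 4 := ⟨_, rfl⟩
    have hD0 : 0 ≤ D := by linarith
    have hd : (d : ℤ) = D + (e + 2) ^ 4 := by linarith
    have h1 : 0 < 4 * (((d : ℤ) - (tri (e + 1) + 1)) * (d - (e + 1)) -
        (d + tri (e + 1)) * ((e + 2) * ((e + 2) * (tri (e + 1) + 1 + (e + 1)) + 1))) := by
      have h2 : 4 * (((d : ℤ) - (tri (e + 1) + 1)) * (d - (e + 1)) -
          (d + tri (e + 1)) * ((e + 2) * ((e + 2) * (tri (e + 1) + 1 + (e + 1)) + 1))) =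
          2 * ((2 * (d : ℤ) - (2 * tri (e + 1) + 2)) * (d - (e + 1))) -
          (2 * d + 2 * tri (e + 1)) * ((e + 2) * ((e + 2) * (2 * tri (e + 1) + 2 + 2 * (e + 1)) + 2)) := by
        ring
      rw [h2, t1, hd]
      have h3 : 2 * ((2 * (D + ((e : ℤ) + 2) ^ 4) - ((↑e + 1) * (↑e + 1 - 1) + 2)) *
          (D + (↑e + 2) ^ 4 - (↑e + 1))) -
          (2 * (D + (↑e + 2) ^ 4) + (↑e + 1) * (↑e + 1 - 1)) *
            ((↑e + 2) * ((↑e + 2) * ((↑e + 1) * (↑e + 1 - 1) + 2 + 2 * (↑e + 1)) + 2)) =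
          4 * D ^ 2 + D * (6 * e ^ 4 + 50 * e ^ 3 + 150 * e ^ 2 + 190 * e + 80) +
            (2 * e ^ 8 + 34 * e ^ 7 + 245 * e ^ 6 + 982 * e ^ 5 + 2389 * e ^ 4 + 3584 * e ^ 3 +
              3186 * e ^ 2 + 1490 * e + 260) := by
        ring
      rw [h3]
      positivity
    linarith

/-- The bound depending only on `e`, `d` and the loss. -/
theorem card_polyA [CharZero k] {e d : ℕ} {A : K} {f : K[X]} {P : Finset K} (hS : StabA e d A f P)
    (hed : (e + 2) ^ 4 ≤ d) (Q : PlaceData k K)
    (hf : ¬ ∃ y : K, y ≠ 0 ∧ ∃ g : k[X], g.map (algebraMap k K) = scal y f) :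
    P.card ≤ max (d * d + 1) (d ^ ((d - 1) * ((e + 1) * (e + 2) * Q.lossT.toNat) + 1)) := by
  classical
  obtain ⟨n1, n2, n3⟩ := numericA e d hed
  by_cases hP0 : (P.erase 0).Nonempty
  · set H := Hn Q d A (supp Q (insert A P)) (qm Q (P.erase 0) hP0) with hHd
    have hsm := small_A hS n1 (by omega) hP0 Q hf
    rw [← hHd] at hsm
    rcases le_or_gt H 0 with hH | hH
    · rw [Int.toNat_of_nonpos hH] at hsm
      simp only [mul_zero, zero_add, pow_one] at hsm
      refine hsm.trans (le_max_of_le_left ?_)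
      have : d ≤ d * d := Nat.le_mul_of_pos_left d (by omega)
      omega
    · rcases le_or_gt (((d : ℤ) - 1) * (tri (e + 2) * Q.lossT)) H with hΛ | hΛ
      · exact (poly_large hS n2 hP0 n3 hH hΛ).trans (le_max_left _ _)
      · refine hsm.trans (le_max_of_le_right ?_)
        apply Nat.pow_le_pow_right (by omega)
        have t2 := two_tri (e + 2)
        push_cast at t2
        have hd1 : ((d - 1 : ℕ) : ℤ) = (d : ℤ) - 1 := by
          push_cast [Nat.cast_sub (show 1 ≤ d by omega)]
          ring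
        have hT : 0 ≤ Q.lossT := by
          by_contra hcon
          push Not at hcon
          have h1 : ((d : ℤ) - 1) * (tri (e + 2) * Q.lossT) ≤ 0 := by
            apply mul_nonpos_of_nonneg_of_nonpos
            · rw [← hd1]
              positivity
            · apply mul_nonpos_of_nonneg_of_nonpos (tri_nonneg _) hcon.le
          linarith
        have h3 : ((H.toNat : ℕ) : ℤ) = H := Int.toNat_of_nonneg hH.le
        have h4 : ((Q.lossT.toNat : ℕ) : ℤ) = Q.lossT := Int.toNat_of_nonneg hT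
        zify
        rw [h3, h4, hd1]
        have h5 : ((d : ℤ) - 1) * ((e + 1) * (e + 2) * Q.lossT) =
            2 * (((d : ℤ) - 1) * (tri (e + 2) * Q.lossT)) := by
          linear_combination (-(((d : ℤ) - 1) * Q.lossT)) * t2
        rw [h5]
        linarith
  · rw [Finset.not_nonempty_iff_eq_empty] at hP0
    have h1 : P ⊆ {0} := by
      intro z hz
      by_contra hz0
      rw [Finset.mem_singleton] at hz0
      have : z ∈ P.erase 0 := Finset.mem_erase.mpr ⟨hz0, hz⟩
      rw [hP0] at this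
      exact absurd this (Finset.notMem_empty _)
    have h2 := Finset.card_le_card h1
    rw [Finset.card_singleton] at h2
    refine h2.trans (le_max_of_le_left (by omega))

end Pool.Agent.W277.UC
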