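import Mathlib
import Pool.Agent.W277.UC.PolySmall2
import Pool.Agent.W277.UB.Fin2
import Pool.Agent.W277.UB.Fin

/-!
# Polynomials with a gap: the final theorems
-/

namespace Pool.Agent.W277.UC

open Finset Polynomial Pool.Agent.W277.UB PlaceData

universe w

/-- Pull back place data along an embedding. -/
noncomputable def comapPl {k K L M : Type*} [Field k] [Field K] [Algebra k K] [Field L] [Field M]
    [Algebra L M] (Q : PlaceData L M) (φ : K →+* M) (i : k →+* L)
    (hφ : ∀ c, φ (algebraMap k K c) = algebraMap L M (i c)) (D : Derivation k K K)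
    (hD : ∀ x, φ (D x) = Q.D (φ x)) (hker : ∀ x, D x = 0 → ∃ c : k, algebraMap k K c = x) :
    PlaceData k K where
  Pl := Q.Pl
  ord := fun v x => Q.ord v (φ x)
  wt := Q.wt
  wt_nonneg := Q.wt_nonneg
  wt_one := Q.wt_one
  ord_mul := by
    intro v x y hx hy
    rw [map_mul]
    exact Q.ord_mul v _ _ ((_root_.map_ne_zero φ).mpr hx) ((_root_.map_ne_zero φ).mpr hy)
  ord_add := by
    intro v x y m hx hy hxy h1 h2
    rw [map_add]
    refine Q.ord_add v _ _ m ((_root_.map_ne_zero φ).mpr hx) ((_root_.map_ne_zero φ).mpr hy) ?_ h1 h2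
    rw [← map_add]
    exact (_root_.map_ne_zero φ).mpr hxy
  ord_alg := by
    intro v c hc
    rw [hφ]
    exact Q.ord_alg v _ ((_root_.map_ne_zero i).mpr hc)
  fin := fun x hx => Q.fin _ ((_root_.map_ne_zero φ).mpr hx)
  prod_formula := fun x hx S hS => Q.prod_formula _ ((_root_.map_ne_zero φ).mpr hx) S hS
  const := by
    intro x hx h
    obtain ⟨c, hc⟩ := Q.const _ ((_root_.map_ne_zero φ).mpr hx) h
    apply hker
    have h1 : φ (D x) = 0 := by
      rw [hD, ← hc]
      exact Q.D.map_algebraMap c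
    exact (map_eq_zero_iff φ φ.injective).mp h1
  D := D
  D_ker := hker
  loss := Q.loss
  loss_nonneg := Q.loss_nonneg
  lossS := Q.lossS
  loss_supp := Q.loss_supp
  lossT := Q.lossT
  loss_sum := Q.loss_sum
  D_ord := by
    intro v x j m hx hj hm
    have h1 : φ (D^[j] x) = (Q.D)^[j] (φ x) := (Function.Semiconj.iterate_right hD j) x
    rw [h1]
    refine Q.D_ord v _ j m ((_root_.map_ne_zero φ).mpr hx) ?_ hm
    rw [← h1]
    exact (_root_.map_ne_zero φ).mpr hj
  D_ord' := by
    intro v x j hx hj hm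
    have h1 : φ (D^[j] x) = (Q.D)^[j] (φ x) := (Function.Semiconj.iterate_right hD j) x
    rw [h1]
    refine Q.D_ord' v _ j ((_root_.map_ne_zero φ).mpr hx) ?_ hm
    rw [← h1]
    exact (_root_.map_ne_zero φ).mpr hj

/-- Place data without loss on `k(t)`, for every field `k` of characteristic zero. -/
theorem exists_ratPl (k : Type w) [Field k] [CharZero k] :
    ∃ Q : PlaceData.{w} k (RatFunc k), Q.lossT = 0 := by
  classical
  let L := AlgebraicClosure k
  have : CharZero L := charZero_of_injective_algebraMap (algebraMap k L).injective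
  have hinj : Function.Injective ((algebraMap L[X] (RatFunc L)).comp
      (mapRingHom (algebraMap k L))) :=
    (RatFunc.algebraMap_injective L).comp (map_injective _ (algebraMap k L).injective)
  let φ : RatFunc k →+* RatFunc L := IsFractionRing.lift hinj
  have hφ : ∀ p : k[X], φ (algebraMap k[X] (RatFunc k) p) =
      algebraMap L[X] (RatFunc L) (p.map (algebraMap k L)) := fun p =>
    IsFractionRing.lift_algebraMap hinj p
  have hφD : ∀ x : RatFunc k, φ (ratD k x) = ratD L (φ x) := by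
    intro x
    obtain ⟨a, b, hb, rfl⟩ := exists_mk x
    have hb' : b.map (algebraMap k L) ≠ 0 := by
      rwa [Ne, Polynomial.map_eq_zero]
    rw [ratD_mk _ _ hb, map_div₀, map_div₀, hφ, hφ, hφ, hφ, ratD_mk _ _ hb']
    simp only [Polynomial.map_sub, Polynomial.map_mul, Polynomial.map_pow, derivative_map]
  have hφD' : ∀ x : RatFunc k, φ (ratDer k x) = (ratPlaces L).D (φ x) := hφD
  refine ⟨comapPl (ratPlaces L) φ (algebraMap k L) ?_ (ratDer k) hφD' ?_, rfl⟩
  · intro c
    have h1 : algebraMap k (RatFunc k) c = algebraMap k[X] (RatFunc k) (C c) := by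
      rw [RatFunc.algebraMap_C]
      rfl
    have h2 : algebraMap L (RatFunc L) (algebraMap k L c) =
        algebraMap L[X] (RatFunc L) (C (algebraMap k L c)) := by
      rw [RatFunc.algebraMap_C]
      rfl
    rw [h1, h2, hφ, Polynomial.map_C]
  · intro x hx
    obtain ⟨c, hc⟩ := ratD_ker _ hx
    exact ⟨c, hc⟩

variable {k K : Type*} [Field k] [Field K] [Algebra k K]

/-- The conjugate of `f` by the affine map `X ↦ y X + b`. -/
noncomputable def aff (y b : K) (f : K[X]) : K[X] := C y⁻¹ * (f.comp (C y * X + C b) - C b)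

lemma prePer_aff (f : K[X]) (b : K) :
    PrePer f ⊆ (fun z => z + b) '' PrePer (f.comp (X + C b) - C b) := by
  intro z hz
  refine ⟨z - b, ?_, by ring⟩
  have h6 : ∀ n : ℕ, (fun x => (f.comp (X + C b) - C b).eval x)^[n] (z - b) =
      ((fun x => f.eval x)^[n] z) - b := by
    intro n
    induction n with
    | zero => rfl
    | succ n ih =>
      rw [Function.iterate_succ_apply', Function.iterate_succ_apply', ih]
      simp [eval_comp]
  unfold PrePer at hz ⊢
  have h7 : {w | ∃ n : ℕ, (fun x => (f.comp (X + C b) - C b).eval x)^[n] (z - b) = w} ⊆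
      (fun w => w - b) '' {w | ∃ n : ℕ, (fun x => f.eval x)^[n] z = w} := by
    rintro _ ⟨n, rfl⟩
    exact ⟨_, ⟨n, rfl⟩, (h6 n).symm⟩
  exact (Set.Finite.image _ hz).subset h7

/-- Uniform boundedness for gap polynomials, given place data. -/
theorem prePerA_le [CharZero k] {e d : ℕ} (hed : (e + 2) ^ 4 ≤ d) {f : K[X]} {A b : K} (hA : A ≠ 0)
    (hf : (f.comp (X + C b) - C A * X ^ d).natDegree ≤ e) (Q : PlaceData k K)
    (hiso : ¬ ∃ y b : K, y ≠ 0 ∧ ∃ g : k[X], g.map (algebraMap k K) = aff y b f) :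
    (PrePer f).encard ≤ ((max (d * d + 1) (d ^ ((d - 1) * ((e + 1) * (e + 2) * Q.lossT.toNat) + 1)) :
      ℕ) : ℕ∞) := by
  classical
  set B := max (d * d + 1) (d ^ ((d - 1) * ((e + 1) * (e + 2) * Q.lossT.toNat) + 1)) with hB
  set f1 : K[X] := f.comp (X + C b) - C b with hf1
  have hle : (PrePer f).encard ≤ (PrePer f1).encard := by
    refine (Set.encard_le_encard (prePer_aff f b)).trans ?_
    exact Set.encard_image_le _ _
  refine hle.trans ?_
  have hf1' : (f1 - C A * X ^ d).natDegree ≤ e := by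
    have h1 : f1 - C A * X ^ d = (f.comp (X + C b) - C A * X ^ d) - C b := by
      rw [hf1]
      ring
    rw [h1, natDegree_sub_C]
    exact hf
  have hiso1 : ¬ ∃ y : K, y ≠ 0 ∧ ∃ g : k[X], g.map (algebraMap k K) = scal y f1 := by
    rintro ⟨y, hy, g, hg⟩
    refine hiso ⟨y, b, hy, g, ?_⟩
    rw [hg, scal, aff, hf1, sub_comp, comp_assoc, C_comp]
    simp
  by_contra hcon
  push Not at hcon
  obtain ⟨T, hTs, hT⟩ := Set.exists_subset_encard_eq (Order.add_one_le_of_lt hcon)
  have hTf : T.Finite := by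
    apply Set.finite_of_encard_eq_coe (k := B + 1)
    rw [hT]
    norm_cast
  lift T to Finset K using hTf
  obtain ⟨P, hTP, hP⟩ := exists_stab f1 T fun z hz => hTs (by simpa using hz)
  have h1 := card_polyA ⟨hA, hf1', hP⟩ hed Q hiso1
  have h2 := Finset.card_le_card hTP
  rw [Set.encard_coe_eq_coe_finsetCard] at hT
  have h3 : T.card = B + 1 := by
    exact_mod_cast hT
  rw [← hB] at h1
  omega

/-- Uniform boundedness for gap polynomials over `k(t)`, with an explicit bound. -/
theorem poly_rat (k : Type*) [Field k] [CharZero k] (e d : ℕ) (hed : (e + 2) ^ 4 ≤ d)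
    (f : (RatFunc k)[X]) (A b : RatFunc k) (hA : A ≠ 0)
    (hf : (f.comp (X + C b) - C A * X ^ d).natDegree ≤ e)
    (hiso : ¬ ∃ y b : RatFunc k, y ≠ 0 ∧ ∀ n, (aff y b f).coeff n ∈ (algebraMap k (RatFunc k)).range) :
    (PrePer f).encard ≤ ((d ^ 2 + 1 : ℕ) : ℕ∞) := by
  obtain ⟨Q, hQ⟩ := exists_ratPl k
  have h1 := prePerA_le hed hA hf Q (by
    rintro ⟨y, b, hy, g, hg⟩
    refine hiso ⟨y, b, hy, fun n => ?_⟩
    rw [← hg, coeff_map]
    exact ⟨_, rfl⟩)
  rw [hQ] at h1
  refine h1.trans (le_of_eq ?_)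
  congr 1
  simp only [Int.toNat_zero, mul_zero, zero_add, pow_one]
  rw [sq]
  apply max_eq_left
  have hd : 1 ≤ d := le_trans (Nat.one_le_pow _ _ (by omega)) hed
  have : d ≤ d * d := Nat.le_mul_of_pos_left d (by omega)
  omega

/-- Uniform boundedness for gap polynomials over function fields of characteristic zero. -/
theorem poly_ff (k : Type*) (K : Type*) [Field k] [CharZero k] [Field K] [Algebra k K]
    (hFG : (⊤ : IntermediateField k K).FG)
    (hx : ∃ x : K, Transcendental k x ∧ Algebra.IsAlgebraic (IntermediateField.adjoin k {x}) K) :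
    ∃ c : ℕ, ∀ e d : ℕ, (e + 2) ^ 4 ≤ d → ∀ (f : K[X]) (A b : K), A ≠ 0 →
      (f.comp (X + C b) - C A * X ^ d).natDegree ≤ e →
      (¬ ∃ y b : K, y ≠ 0 ∧ ∀ n, IsAlgebraic k ((aff y b f).coeff n)) →
      (PrePer f).encard ≤
        ((max (d ^ 2 + 1) (d ^ ((d - 1) * ((e + 1) * (e + 2) * c) + 1)) : ℕ) : ℕ∞) := by
  obtain ⟨Q⟩ := exists_placeData_ff k K hFG hx
  have : CharZero (algebraicClosure k K) := charZero_of_injective_algebraMap
    (algebraMap k (algebraicClosure k K)).injective
  refine ⟨Q.lossT.toNat, fun e d hed f A b hA hf hiso => ?_⟩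
  rw [sq]
  refine prePerA_le hed hA hf Q ?_
  rintro ⟨y, b, hy, g, hg⟩
  refine hiso ⟨y, b, hy, fun n => ?_⟩
  rw [← hg, coeff_map]
  exact mem_algebraicClosure_iff.mp (g.coeff n).2

end Pool.Agent.W277.UC
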